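import Pool.Agent.H51.KG.Graph
import Pool.Agent.H81.RZ.Kr

/-!
# Graphs of maximal degree three decide everything
-/

set_option autoImplicit false
set_option linter.unusedSectionVars false
set_option linter.unusedVariables false

open CategoryTheory AlgebraicGeometry MvPolynomial Pool.Agent.Y116.UV Pool.Agent.Z125.UN
  Pool.Agent.H81.RZ Pool.Agent.Q193.LT

namespace Pool.Agent.H51.KG

section deg

variable {V : Type} [Fintype V] [DecidableEq V] (G : SimpleGraph V)

/-- the degree -/
noncomputable def deg {V : Type} (G : SimpleGraph V) (a : V) : ℕ := (G.neighborSet a).ncard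

/-- the excess of the degrees over three -/
noncomputable def exc {V : Type} [Fintype V] (G : SimpleGraph V) : ℕ := ∑ a, (deg G a - 3)

variable {G} {v : V} {N : Set V}

lemma deg_spl1_none (hN : N.ncard = 2) : deg (spl1 G v N) none ≤ 3 := by
  have h1 : (spl1 G v N).neighborSet none ⊆ some '' (insert v N) := by
    intro x hx
    rcases x with _ | b
    · exact absurd hx fun h => h
    · refine ⟨b, ?_, rfl⟩
      rcases hx with rfl | h
      · exact Set.mem_insert _ _
      · exact Set.mem_insert_of_mem _ h.1
  calc deg (spl1 G v N) none ≤ (some '' (insert v N)).ncard := Set.ncard_le_ncard h1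
    _ = (insert v N).ncard := Set.ncard_image_of_injective _ (Option.some_injective _)
    _ ≤ N.ncard + 1 := Set.ncard_insert_le _ _
    _ = 3 := by rw [hN]

lemma deg_spl1_v (hN : N.ncard = 2) (hNv : N ⊆ G.neighborSet v) :
    deg (spl1 G v N) (some v) ≤ deg G v - 1 := by
  have h1 : (spl1 G v N).neighborSet (some v) ⊆
      insert none (some '' (G.neighborSet v \ N)) := by
    intro x hx
    rcases x with _ | b
    · exact Set.mem_insert _ _
    · refine Set.mem_insert_of_mem _ ⟨b, ⟨hx.1, fun h => hx.2.1 ⟨rfl, h⟩⟩, rfl⟩
  have h2 : (G.neighborSet v \ N).ncard = deg G v - 2 := by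
    rw [Set.ncard_diff hNv, hN]
    rfl
  have h3 : 2 ≤ deg G v := by
    rw [← hN]
    exact Set.ncard_le_ncard hNv
  calc deg (spl1 G v N) (some v) ≤ (insert none (some '' (G.neighborSet v \ N))).ncard :=
        Set.ncard_le_ncard h1
    _ ≤ (some '' (G.neighborSet v \ N)).ncard + 1 := Set.ncard_insert_le _ _
    _ = (G.neighborSet v \ N).ncard + 1 := by
        rw [Set.ncard_image_of_injective _ (Option.some_injective _)]
    _ = deg G v - 1 := by
        rw [h2]
        omega

lemma deg_spl1_other {a : V} (ha : a ≠ v) : deg (spl1 G v N) (some a) ≤ deg G a := by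
  refine Set.ncard_le_ncard_of_injOn (q v) ?_ ?_
  · intro x hx
    rcases x with _ | b
    · rcases hx with h | h
      · exact absurd h ha
      · exact h.2.symm
    · exact hx.1
  · intro x hx y hy hxy
    rcases x with _ | b <;> rcases y with _ | c
    · rfl
    · exfalso
      have h1 : v = c := hxy
      subst h1
      rcases hx with h | h
      · exact ha h
      · exact hy.2.2 ⟨rfl, h.1⟩
    · exfalso
      have h1 : b = v := hxy
      subst h1
      rcases hy with h | h
      · exact ha h
      · exact hx.2.2 ⟨rfl, h.1⟩
    · exact congrArg some hxy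

lemma exc_spl1 (hv : 4 ≤ deg G v) (hN : N.ncard = 2) (hNv : N ⊆ G.neighborSet v) :
    exc (spl1 G v N) + 1 ≤ exc G := by
  have h1 := deg_spl1_none (G := G) (v := v) hN
  have h2 := deg_spl1_v hN hNv
  rw [exc, Fintype.sum_option, exc, ← Finset.add_sum_erase _ _ (Finset.mem_univ v),
    ← Finset.add_sum_erase (f := fun a => deg G a - 3) _ (Finset.mem_univ v)]
  have h3 : ∑ a ∈ Finset.univ.erase v, (deg (spl1 G v N) (some a) - 3) ≤
      ∑ a ∈ Finset.univ.erase v, (deg G a - 3) := by
    apply Finset.sum_le_sum
    intro a ha
    have := deg_spl1_other (G := G) (v := v) (N := N) (Finset.ne_of_mem_erase ha)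
    omega
  omega

lemma exc_spl : exc (spl G v N) ≤ exc (spl1 G v N) := by
  apply Finset.sum_le_sum
  intro x _
  have h1 : deg (spl G v N) x ≤ deg (spl1 G v N) x := by
    refine Set.ncard_le_ncard ?_ (Set.toFinite _)
    intro y hy
    rcases x with _ | a <;> rcases y with _ | b
    · exact hy
    · exact Or.inr hy
    · exact Or.inr hy
    · exact hy
  omega

lemma exc_spl2 : exc (spl2 G v N) ≤ exc (spl1 G v N) := by
  rw [exc, Fintype.sum_option]
  have h0 : deg (spl2 G v N) none ≤ 2 := by
    have h1 : (spl2 G v N).neighborSet none ⊆ {some none, some (some v)} := by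
      intro x hx
      rcases x with _ | b
      · exact absurd hx fun h => h
      · rcases hx with rfl | rfl
        · exact Set.mem_insert _ _
        · exact Set.mem_insert_of_mem _ rfl
    calc deg (spl2 G v N) none ≤ ({some none, some (some v)} : Set _).ncard :=
          Set.ncard_le_ncard h1
      _ ≤ ({some (some v)} : Set (Option (Option V))).ncard + 1 := Set.ncard_insert_le _ _
      _ = 2 := by rw [Set.ncard_singleton]
  have h1 : ∀ x, deg (spl2 G v N) (some x) ≤ deg (spl1 G v N) x := by
    intro x
    refine Set.ncard_le_ncard_of_injOn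
      (fun t => t.elim (if x = none then some v else none) id) ?_ ?_
    · intro t ht
      rcases t with _ | y
      · rcases ht with h | h
        · subst h
          exact Or.inl rfl
        · subst h
          exact Or.inl rfl
      · rcases x with _ | a <;> rcases y with _ | b
        · exact ht
        · exact Or.inr ht
        · exact Or.inr ht
        · exact ht
    · intro t ht u hu htu
      have key : ∀ y : Option V, (spl2 G v N).Adj (some x) none →
          (spl2 G v N).Adj (some x) (some y) → (if x = none then some v else none) ≠ y := by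
        intro y h2 h3 h4
        rcases h2 with h | h
        · subst h
          rw [if_pos rfl] at h4
          subst h4
          exact G.loopless.irrefl v h3.2
        · subst h
          rw [if_neg (by simp)] at h4
          subst h4
          exact G.loopless.irrefl v h3.2
      rcases t with _ | y <;> rcases u with _ | z
      · rfl
      · exact absurd htu (key z ht hu)
      · exact absurd htu.symm (key y hu ht)
      · exact congrArg some htu
  have h2 : ∑ x, (deg (spl2 G v N) (some x) - 3) ≤ exc (spl1 G v N) := by
    apply Finset.sum_le_sum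
    intro x _
    have := h1 x
    omega
  omega

lemma deg_map {W : Type} (e : V ≃ W) (a : W) : deg (G.map e.toEmbedding) a = deg G (e.symm a) := by
  have h1 : (G.map e.toEmbedding).neighborSet a = e '' G.neighborSet (e.symm a) := by
    ext b
    rw [SimpleGraph.mem_neighborSet, SimpleGraph.map_adj, Set.mem_image]
    constructor
    · rintro ⟨a', b', h1, h2, h3⟩
      refine ⟨b', ?_, h3⟩
      rw [← h2]
      change G.Adj (e.symm (e a')) b'
      rw [e.symm_apply_apply]
      exact h1
    · rintro ⟨b', h1, h2⟩
      exact ⟨_, _, h1, e.apply_symm_apply a, h2⟩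
  rw [deg, h1, Set.ncard_image_of_injective _ e.injective]
  rfl

end deg

section main

variable {R : Type} [CommRing R] {sep : Prop} {P : Sch R → Prop}

/-- `P` is true for the hypersurfaces of the Kirchhoff polynomials of all graphs whose vertices have at
most `k` neighbours. -/
def OnDegree (k : ℕ) (P : Sch R → Prop) : Prop :=
  ∀ (n : ℕ) (G : SimpleGraph (Fin n)), (∀ v, (G.neighborSet v).ncard ≤ k) → P (aff R (Xg R G))

/-- `P` is true for the complements of the hypersurfaces of the Kirchhoff polynomials of all graphs
whose vertices have at most `k` neighbours. -/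
def OffDegree (k : ℕ) (P : Sch R → Prop) : Prop :=
  ∀ (n : ℕ) (G : SimpleGraph (Fin n)), (∀ v, (G.neighborSet v).ncard ≤ k) →
    P (aff R (Localization.Away (kirchhoff R G)))

lemma p_al (hP : Uni sep P) {n : ℕ} (G : SimpleGraph (Fin n)) :
    P (aff R (MvPolynomial G.edgeSet R)) := by
  have : Fintype G.edgeSet := Fintype.ofFinite _
  exact iso_alg hP (MvPolynomial.renameEquiv R (Fintype.equivFin G.edgeSet).symm) (hP.space _)

/-- the hypersurface and its complement -/
lemma on_iff_off (hP : Uni sep P) {n : ℕ} (G : SimpleGraph (Fin n)) :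
    P (aff R (Xg R G)) ↔ P (aff R (Localization.Away (kirchhoff R G))) :=
  ⟨fun h => hP.opened _ _ (ft_aff sep) (triple_away (kirchhoff R G)) h (p_al hP G),
    fun h => hP.closed _ _ (ft_aff sep) (triple_away (kirchhoff R G)) (p_al hP G) h⟩

/-- the points of the complement -/
lemma rep_off {n : ℕ} (G : SimpleGraph (Fin n)) :
    ∃ a, Rep ((al R G.edgeSet).opn (plFn (kirchhoff R G))) (Localization.Away (kirchhoff R G)) a := by
  have h1 := (rep_al R G.edgeSet).opn (plFn (kirchhoff R G))
  have h2 : (plFn (kirchhoff R G)).val (MvPolynomial G.edgeSet R) X = kirchhoff R G :=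
    aeval_X_left_apply _
  rw [h2] at h1
  exact ⟨_, h1⟩

lemma kp_iff (hP : Uni sep P) {n : ℕ} (G : SimpleGraph (Fin n)) :
    Hol P (KP R G) ↔ P (aff R (Localization.Away (kirchhoff R G))) := by
  obtain ⟨a, ha⟩ := rep_off (R := R) G
  constructor
  · intro h
    exact (h.trans (bij_symm (bij_fin G))).of_rep (clo_of_uni hP) ha
  · intro h
    have h4 : Algebra.FiniteType R (Localization.Away (kirchhoff R G)) :=
      Algebra.FiniteType.trans (S := MvPolynomial G.edgeSet R) inferInstance inferInstance
    exact Hol.trans ⟨_, inferInstance, inferInstance, h4, a, ha, h⟩ (bij_fin G)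

/-- all graphs, from the graphs of maximal degree three -/
theorem hol_kp (hP : Bnd sep P) (h : OffDegree 3 P) (m : ℕ) :
    ∀ (V : Type) [Fintype V] [DecidableEq V] [Nonempty V] (G : SimpleGraph V), exc G ≤ m →
      Hol P (KP R G) := by
  induction m with
  | zero =>
    intro V _ _ _ G hG
    let e : V ≃ Fin (Fintype.card V) := Fintype.equivFin V
    have h1 : ∀ a, deg G a ≤ 3 := by
      intro a
      have h2 : deg G a - 3 ≤ exc G :=
        Finset.single_le_sum (f := fun a => deg G a - 3) (fun _ _ => Nat.zero_le _)
          (Finset.mem_univ a)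
      omega
    have h2 : Hol P (KP R (G.map e.toEmbedding)) := by
      rw [kp_iff hP.toUni]
      refine h _ _ fun a => ?_
      have h3 := deg_map (G := G) e a
      rw [deg] at h3
      rw [h3]
      exact h1 _
    exact h2.trans (bij_relabel e G)
  | succ m ih =>
    intro V _ _ _ G hG
    by_cases hd : ∀ a, deg G a ≤ 3
    · refine ih V G ?_
      have : exc G = 0 := Finset.sum_eq_zero fun a _ => by
        have := hd a
        omega
      omega
    · push Not at hd
      obtain ⟨v, hv⟩ := hd
      obtain ⟨N, hNv, hN⟩ := Set.exists_subset_card_eq (s := G.neighborSet v) (n := 2)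
        (by
          have : deg G v = (G.neighborSet v).ncard := rfl
          omega)
      have h1 := exc_spl1 (G := G) (v := v) hv hN hNv
      have h2 := exc_spl (G := G) (v := v) (N := N)
      have h3 := exc_spl2 (G := G) (v := v) (N := N)
      exact split_step hP G v N (ih _ _ (by omega)) (ih _ _ (by omega)) (ih _ _ (by omega))

/-- **Graphs of maximal degree three.** -/
theorem universal_deg3 [IsNoetherianRing R] (hR : Frac R) (hP : Bnd sep P) (h : OffDegree 3 P)
    (X : Sch R) (hX : FT sep X) : P X := by
  refine universal_kirchhoff hR hP (fun n G _ => ?_) X hX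
  rw [on_iff_off hP.toUni]
  rcases n with _ | n
  · exact h 0 G fun v => v.elim0
  · rw [← kp_iff hP.toUni]
    exact hol_kp hP h _ _ G le_rfl

theorem all_offDegree_iff [IsNoetherianRing R] (hR : Frac R) (hP : Bnd sep P) :
    OnAll sep P ↔ OffDegree 3 P := by
  refine ⟨fun h n G _ => h _ ?_, fun h X hX => universal_deg3 hR hP h X hX⟩
  have h4 : Algebra.FiniteType R (Localization.Away (kirchhoff R G)) :=
    Algebra.FiniteType.trans (S := MvPolynomial G.edgeSet R) inferInstance inferInstance
  exact ft_aff sep

theorem all_onDegree_iff [IsNoetherianRing R] (hR : Frac R) (hP : Bnd sep P) :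
    OnAll sep P ↔ OnDegree 3 P := by
  rw [all_offDegree_iff hR hP]
  exact forall_congr' fun n => forall_congr' fun G => forall_congr' fun _ =>
    (on_iff_off hP.toUni G).symm

end main

end Pool.Agent.H51.KG
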