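import Pool.Agent.H81.RZ.Kir

/-!
# The sum over the spanning trees and the contraction of an edge
-/

set_option autoImplicit false
set_option linter.unusedSectionVars false

open Pool.Agent.H81.RZ

namespace Pool.Agent.H51.KG

variable {V : Type} [Fintype V] [DecidableEq V] {C : Type} [CommRing C]

/-- the minor without row `v` and column `v` -/
lemma det_minor_congr {A B : Matrix V V C} {v : V} (h : ∀ a b, a ≠ v → b ≠ v → A a b = B a b) :
    (A.updateRow v (Pi.single v 1)).det = (B.updateRow v (Pi.single v 1)).det := by
  have key : ∀ M : Matrix V V C, (M.updateRow v (Pi.single v 1)).det =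
      (M.updateCol v (Pi.single v 1)).det := by
    intro M
    have h1 : (M.updateRow v (Pi.single v 1)).det = M.adjugate v v := (Matrix.adjugate_apply M v v).symm
    have h2 : (M.transpose.updateRow v (Pi.single v 1)).det = M.transpose.adjugate v v :=
      (Matrix.adjugate_apply M.transpose v v).symm
    rw [← Matrix.adjugate_transpose, Matrix.transpose_apply] at h2
    rw [h1, ← h2, Matrix.updateRow_transpose, Matrix.det_transpose]
  have h1 : A.updateRow v (Pi.single v 1) = (A.updateRow v (B v)).updateRow v (Pi.single v 1) := by
    rw [Matrix.updateRow_idem]
  have h2 : (A.updateRow v (B v)).updateCol v (Pi.single v 1) = B.updateCol v (Pi.single v 1) := by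
    ext a b
    by_cases hb : b = v
    · subst hb
      rw [Matrix.updateCol_self, Matrix.updateCol_self]
    · rw [Matrix.updateCol_ne hb, Matrix.updateCol_ne hb]
      by_cases ha : a = v
      · subst ha
        rw [Matrix.updateRow_self]
      · rw [Matrix.updateRow_ne ha]
        exact h a b ha hb
  rw [h1, key, h2, ← key]

lemma diag_of {W : Type} {w : Sym2 W → C} (hw : ∀ a, w s(a, a) = 0) (e : Sym2 W) (h : e.IsDiag) :
    w e = 0 := by
  induction e with
  | h a b =>
    have h1 : a = b := h
    subst h1
    exact hw a

/-- the weights after the contraction of the edge `none`, `v` -/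
def ctr (v : V) (w : Sym2 (Option V) → C) : Sym2 V → C :=
  Sym2.lift ⟨fun a b => if a = b then 0 else w s(some a, some b) +
    (if a = v then w s(none, some b) else 0) + (if b = v then w s(none, some a) else 0), by
      intro a b
      by_cases h : a = b
      · subst h
        rfl
      · beta_reduce
        rw [if_neg h, if_neg (Ne.symm h), Sym2.eq_swap (a := some a) (b := some b)]
        ring⟩

lemma ctr_mk (v : V) (w : Sym2 (Option V) → C) {a b : V} (h : a ≠ b) :
    ctr v w s(a, b) = w s(some a, some b) + (if a = v then w s(none, some b) else 0) +
      (if b = v then w s(none, some a) else 0) := if_neg h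

@[simp] lemma ctr_self (v : V) (w : Sym2 (Option V) → C) (a : V) : ctr v w s(a, a) = 0 := if_pos rfl

lemma map_ctr {D : Type} [CommRing D] (f : C →+* D) (v : V) (w : Sym2 (Option V) → C)
    (e : Sym2 V) : f (ctr v w e) = ctr v (fun e => f (w e)) e := by
  induction e with
  | h a b =>
    by_cases h : a = b
    · subst h
      rw [ctr_self, ctr_self, map_zero]
    · rw [ctr_mk v w h, ctr_mk v _ h, map_add, map_add]
      congr 1
      · congr 1
        split_ifs
        · rfl
        · exact map_zero f
      · split_ifs
        · rfl
        · exact map_zero f

/-- contraction and deletion of an edge -/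
theorem trees_split (w : Sym2 (Option V) → C) (hw : ∀ a, w s(a, a) = 0)
    (v : V) (hv : w s(none, some v) = 0) (x : C) :
    trees (fun e => if e = s(none, some v) then x else w e) = trees (ctr v w) * x + trees w := by
  set w' : Sym2 (Option V) → C := fun e => if e = s(none, some v) then x else w e with hw'
  have hd : ∀ a, w' s(a, a) = 0 := by
    intro a
    have h1 : s(a, a) ≠ s(none, some v) := by
      rw [Ne, Sym2.eq_iff]
      rintro (⟨h1, h2⟩ | ⟨h1, h2⟩)
      · rw [h1] at h2
        cases h2
      · rw [h1] at h2
        cases h2
    simp only [hw', if_neg h1]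
    exact hw a
  rw [← matrix_tree w' (diag_of hd) none, ← matrix_tree w (diag_of hw) none,
    ← matrix_tree (ctr v w) (diag_of (ctr_self v w)) v, ← det_reduced, ← det_reduced]
  set L : Matrix V V C := Matrix.of fun x y => lapl w (some x) (some y) with hL
  have h1 : (Matrix.of fun x y => lapl w' (some x) (some y) : Matrix V V C) =
      L.updateRow v (L v + x • Pi.single v 1) := by
    ext a b
    have h2 : ∀ t, s(some a, t) = s(none, some v) ↔ a = v ∧ t = none := by
      intro t
      rw [Sym2.eq_iff]
      simp
    by_cases ha : a = v
    · subst ha
      rw [Matrix.updateRow_self]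
      simp only [hL, Matrix.of_apply, lapl, Pi.add_apply, Pi.smul_apply, smul_eq_mul,
        Pi.single_apply, Option.some.injEq, hw', h2, true_and, reduceCtorEq, if_false]
      by_cases hb : a = b
      · subst hb
        rw [if_pos rfl, if_pos rfl, if_pos rfl, Fintype.sum_option, Fintype.sum_option,
          if_pos rfl]
        have h3 : w s(some a, none) = 0 := by
          rw [Sym2.eq_swap]
          exact hv
        rw [h3]
        simp only [reduceCtorEq, if_false]
        ring
      · rw [if_neg hb, if_neg hb, if_neg (Ne.symm hb)]
        ring
    · rw [Matrix.updateRow_ne ha]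
      simp only [hL, Matrix.of_apply, lapl, hw', h2, ha, false_and, if_false]
  rw [h1, Matrix.det_updateRow_add, Matrix.det_updateRow_smul, Matrix.updateRow_eq_self,
    add_comm, mul_comm x]
  congr 2
  apply det_minor_congr
  intro a b ha hb
  have h3 : ∀ t : V, t ≠ a → ctr v w s(a, t) = w s(some a, some t) +
      (if t = v then w s(none, some a) else 0) := by
    intro t ht
    rw [ctr_mk v w (Ne.symm ht), if_neg ha, add_zero]
  have h4 : ∑ t, ctr v w s(a, t) = ∑ t : Option V, w s(some a, t) := by
    rw [Fintype.sum_option]
    have h5 : ∀ t : V, ctr v w s(a, t) = w s(some a, some t) +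
        (if t = v then w s(none, some a) else 0) := by
      intro t
      by_cases ht : t = a
      · subst ht
        rw [ctr_self, hw, if_neg ha, add_zero]
      · exact h3 t ht
    rw [Finset.sum_congr rfl fun t _ => h5 t, Finset.sum_add_distrib, Finset.sum_ite_eq' Finset.univ,
      if_pos (Finset.mem_univ v), Sym2.eq_swap, add_comm]
  simp only [hL, Matrix.of_apply, lapl, h4, Option.some.injEq]
  congr 1
  by_cases hab : a = b
  · subst hab
    rw [ctr_self, hw]
  · rw [h3 b (Ne.symm hab), if_neg hb, add_zero]

/-- an isolated vertex -/
lemma trees_isolated {W : Type} [Fintype W] [DecidableEq W] (w : Sym2 W → C)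
    (hw : ∀ a, w s(a, a) = 0) {u r : W} (hur : u ≠ r)
    (hu : ∀ t, w s(u, t) = 0) : trees w = 0 := by
  rw [← matrix_tree w (diag_of hw) r]
  apply Matrix.det_eq_zero_of_row_eq_zero u
  intro t
  rw [Matrix.updateRow_ne hur]
  simp only [lapl, Matrix.of_apply, hu, Finset.sum_const_zero, ite_self, sub_zero]

/-- the weights on one vertex more -/
def up {W : Type} (w : Sym2 W → C) : Sym2 (Option W) → C :=
  Sym2.lift ⟨fun a b => match a, b with
    | some a, some b => w s(a, b)
    | _, _ => 0, by
      intro a b
      rcases a with _ | a <;> rcases b with _ | b
      · rfl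
      · rfl
      · rfl
      · change w s(a, b) = w s(b, a)
        rw [Sym2.eq_swap]⟩

@[simp] lemma up_some {W : Type} (w : Sym2 W → C) (a b : W) : up w s(some a, some b) = w s(a, b) :=
  rfl

@[simp] lemma up_none {W : Type} (w : Sym2 W → C) (b : Option W) : up w s(none, b) = 0 := by
  rcases b with _ | b <;> rfl

@[simp] lemma up_none' {W : Type} (w : Sym2 W → C) (b : Option W) : up w s(b, none) = 0 := by
  rcases b with _ | b <;> rfl

lemma up_self {W : Type} {w : Sym2 W → C} (hw : ∀ a, w s(a, a) = 0) (a : Option W) :
    up w s(a, a) = 0 := by
  rcases a with _ | a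
  · rfl
  · exact hw a

/-- the weights after the subdivision of the edge `none`, `some v` -/
def sub2 (v : V) (w : Sym2 (Option V) → C) (x y : C) : Sym2 (Option (Option V)) → C := fun e =>
  if e = s(none, some none) then x else if e = s(none, some (some v)) then y else up w e

theorem trees_sub2 (w : Sym2 (Option V) → C) (hw : ∀ a, w s(a, a) = 0)
    (v : V) (hv : w s(none, some v) = 0) (x y : C) :
    trees (sub2 v w x y) = trees (ctr v w) * (x * y) + trees w * (x + y) := by
  -- the weights with the second edge only
  set w1 : Sym2 (Option (Option V)) → C :=
    fun e => if e = s(none, some (some v)) then y else up w e with hw1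
  have h0 : ∀ t : Option (Option V), w1 s(none, t) = if t = some (some v) then y else 0 := by
    intro t
    have h1 : (s(none, t) : Sym2 (Option (Option V))) = s(none, some (some v)) ↔
        t = some (some v) := Sym2.congr_right
    by_cases ht : t = some (some v)
    · rw [if_pos ht]
      exact if_pos (h1.mpr ht)
    · rw [if_neg ht]
      exact (if_neg fun h => ht (h1.mp h)).trans (up_none w t)
  have h0' : ∀ a b : Option V, w1 s(some a, some b) = w s(a, b) := by
    intro a b
    have h8 : (s(some a, some b) : Sym2 (Option (Option V))) ≠ s(none, some (some v)) := by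
      rw [Ne, Sym2.eq_iff]
      simp
    exact (if_neg h8).trans (up_some w a b)
  have hd1 : ∀ a, w1 s(a, a) = 0 := by
    intro a
    rcases a with _ | a
    · rw [h0, if_neg (by simp)]
    · rw [h0', hw]
  have hz1 : w1 s(none, some none) = 0 := by
    rw [h0, if_neg (by simp)]
  have h1 := trees_split w1 hd1 (none : Option V) hz1 x
  have h2 := trees_split (up w) (up_self hw) (some v : Option V) (up_none w _) y
  have h3 : trees (up w) = 0 :=
    trees_isolated (up w) (up_self hw) (u := none) (r := some none) (by simp) fun t => up_none w t
  have h4 : ctr (some v) (up w) = w := by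
    funext e
    induction e with
    | h a b =>
      by_cases hab : a = b
      · subst hab
        rw [ctr_self, hw]
      · rw [ctr_mk _ _ hab]
        simp
  have h5 : ctr (none : Option V) w1 = fun e => if e = s(none, some v) then y else w e := by
    funext e
    induction e with
    | h a b =>
      by_cases hab : a = b
      · subst hab
        have h6 : s(a, a) ≠ s(none, some v) := by
          intro h'
          rw [Sym2.eq_iff] at h'
          rcases h' with ⟨h7, h8⟩ | ⟨h7, h8⟩
          · rw [h7] at h8
            cases h8
          · rw [h7] at h8
            cases h8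
        rw [ctr_self, if_neg h6, hw]
      · rw [ctr_mk _ _ hab, h0', h0, h0]
        rcases a with _ | a
        · rcases b with _ | b
          · exact absurd rfl hab
          · rw [if_pos rfl, if_neg (by simp : ¬ (some b = (none : Option V))), add_zero]
            by_cases hb : b = v
            · subst hb
              rw [if_pos rfl, if_pos rfl, hv, zero_add]
            · have h9 : (s(none, some b) : Sym2 (Option V)) ≠ s(none, some v) := by
                rw [Ne, Sym2.congr_right]
                simpa using hb
              rw [if_neg h9, if_neg (by simpa using hb), add_zero]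
        · rcases b with _ | b
          · rw [if_neg (by simp : ¬ (some a = (none : Option V))), if_pos rfl, add_zero]
            have h8 : (s(some a, none) : Sym2 (Option V)) = s(none, some a) := Sym2.eq_swap
            rw [h8]
            by_cases ha : a = v
            · subst ha
              rw [if_pos rfl, if_pos rfl, hv, zero_add]
            · have h9 : (s(none, some a) : Sym2 (Option V)) ≠ s(none, some v) := by
                rw [Ne, Sym2.congr_right]
                simpa using ha
              rw [if_neg h9, if_neg (by simpa using ha), add_zero]
          · have h9 : (s(some a, some b) : Sym2 (Option V)) ≠ s(none, some v) := by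
              rw [Ne, Sym2.eq_iff]
              simp
            rw [if_neg h9]
            simp
  have h6 : sub2 v w x y = fun e => if e = s(none, some none) then x else w1 e := rfl
  have h7 : trees w1 = trees w * y := by
    have h8 : w1 = fun e => if e = s(none, some (some v)) then y else up w e := rfl
    rw [h8, h2, h3, h4, add_zero]
  rw [h6, h1, h5, trees_split w hw v hv y, h7]
  ring

end Pool.Agent.H51.KG
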