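import Pool.Agent.H51.KG.Step
import Pool.Agent.H51.KG.Trees

/-!
# Splitting a vertex of a graph
-/

set_option autoImplicit false
set_option linter.unusedSectionVars false
set_option linter.unusedVariables false

open CategoryTheory AlgebraicGeometry MvPolynomial Pool.Agent.Y116.UV Pool.Agent.Z125.UN
  Pool.Agent.H81.RZ

namespace Pool.Agent.H51.KG

variable {R : Type} [CommRing R] {sep : Prop} {P : Sch R → Prop}

lemma bij_symm {σ τ : Type} {S : Pts R σ} {T : Pts R τ}
    {F : ∀ (C : Type) [CommRing C] [Algebra R C], (σ → C) → (τ → C)}
    {G : ∀ (C : Type) [CommRing C] [Algebra R C], (τ → C) → (σ → C)} (h : Bij S T F G) :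
    Bij T S G F where
  natF f p hp t := h.natG f p hp t
  natG f p hp t := h.natF f p hp t
  memF := h.memG
  memG := h.memF
  GF := h.FG
  FG := h.GF

section basic

variable {V : Type}

/-- the weights which vanish off the edges of `G` -/
def Sup (R : Type) [CommRing R] (G : SimpleGraph V) : Pts R (Sym2 V) where
  pts C _ _ w := ∀ a b, ¬ G.Adj a b → w s(a, b) = 0
  map f p h a b hab := by
    change f (p s(a, b)) = 0
    rw [h a b hab, map_zero]

lemma sup_self {G : SimpleGraph V} {C : Type} [CommRing C] [Algebra R C] {w : Sym2 V → C}
    (h : (Sup R G).pts C w) (a : V) : w s(a, a) = 0 := h a a (G.loopless.irrefl a)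

open Classical in
/-- extension by zero -/
noncomputable def xz (G : SimpleGraph V) {C : Type} [CommRing C] (x : G.edgeSet → C) (e : Sym2 V) :
    C := if h : e ∈ G.edgeSet then x ⟨e, h⟩ else 0

lemma bij_sup (G : SimpleGraph V) : Bij (al R G.edgeSet) (Sup R G) (fun _ _ _ x => xz G x)
    (fun _ _ _ w e => w e.1) where
  natF {C D} _ _ _ _ f x _ e := by
    by_cases h : e ∈ G.edgeSet
    · rw [xz, xz, dif_pos h, dif_pos h]
    · rw [xz, xz, dif_neg h, dif_neg h, map_zero]
  natG f w _ e := rfl
  memF C _ _ x _ a b hab := dif_neg hab
  memG C _ _ w _ := trivial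
  GF C _ _ x _ := by
    funext e
    exact dif_pos e.2
  FG C _ _ w hw := by
    funext e
    by_cases h : e ∈ G.edgeSet
    · exact dif_pos h
    · rw [xz, dif_neg h]
      induction e with
      | h a b => exact (hw a b h).symm

lemma hol_sup (hP : Uni sep P) [Finite V] (G : SimpleGraph V) : Hol P (Sup R G) := by
  have : Finite G.edgeSet := Subtype.finite
  exact (hol_al hP G.edgeSet).trans (bij_sup G)

variable [Fintype V] [DecidableEq V]

/-- the sum over the trees -/
noncomputable def tFn (S : Pts R (Sym2 V)) : Fn S where
  val C _ _ w := trees w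
  nat {C D} _ _ _ _ f w _ := map_trees (f : C →+* D) w

/-- the weights on `G` with an invertible sum over the spanning trees -/
noncomputable def KP (R : Type) [CommRing R] (G : SimpleGraph V) : Pts R (Sym2 V) :=
  (Sup R G).opn (tFn _)

/-- the sum over the trees after the contraction -/
noncomputable def cFn (v : V) (S : Pts R (Sym2 (Option V))) : Fn S where
  val C _ _ w := trees (ctr v w)
  nat {C D} _ _ _ _ f w _ := by
    have h1 := map_trees (f : C →+* D) (ctr v w)
    have h2 : (fun e => (f : C →+* D) (ctr v w e)) = ctr v (fun e => f (w e)) :=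
      funext fun e => map_ctr (f : C →+* D) v w e
    rw [h2] at h1
    exact h1

end basic

section fin

variable {n : ℕ} (G : SimpleGraph (Fin n))

lemma xz_eq {C : Type} [CommRing C] (x : G.edgeSet → C) : xz G x = xt G x := rfl

lemma bij_fin : Bij ((al R G.edgeSet).opn (plFn (kirchhoff R G))) (KP R G)
    (fun _ _ _ x => xz G x) (fun _ _ _ w e => w e.1) where
  natF f x hx e := (bij_sup G).natF f x hx.1 e
  natG f w hw e := rfl
  memF C _ _ x hx := by
    refine ⟨(bij_sup G).memF C x hx.1, ?_⟩
    change IsUnit (trees (xz G x))
    have h1 : IsUnit (aeval x (kirchhoff R G)) := hx.2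
    rw [aeval_kirchhoff] at h1
    exact h1
  memG C _ _ w hw := by
    refine ⟨trivial, ?_⟩
    change IsUnit (aeval (fun e : G.edgeSet => w e.1) (kirchhoff R G))
    rw [aeval_kirchhoff]
    have h1 : xt G (fun e : G.edgeSet => w e.1) = w := (bij_sup (R := R) G).FG C w hw.1
    rw [h1]
    exact hw.2
  GF C _ _ x hx := (bij_sup (R := R) G).GF C x hx.1
  FG C _ _ w hw := (bij_sup (R := R) G).FG C w hw.1

end fin

section relabel

variable {V : Type} [Fintype V] [DecidableEq V]

lemma trees_relabel {C : Type} [CommRing C] [Nonempty V] {n : ℕ} (e : V ≃ Fin n)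
    (w : Sym2 (Fin n) → C) (hw : ∀ a, w s(a, a) = 0) :
    trees (fun s : Sym2 V => w (s.map e)) = trees w := by
  obtain ⟨r⟩ := ‹Nonempty V›
  rw [← matrix_tree w (diag_of hw) (e r), ← det_reindex e w r,
    matrix_tree (fun s : Sym2 V => w (s.map e)) (diag_of fun a => hw (e a)) r]

lemma bij_relabel [Nonempty V] {n : ℕ} (e : V ≃ Fin n) (G : SimpleGraph V) :
    Bij (KP R (G.map e.toEmbedding)) (KP R G) (fun _ _ _ w s => w (s.map e))
      (fun _ _ _ w s => w (s.map e.symm)) where
  natF f w hw s := rfl
  natG f w hw s := rfl
  memF C _ _ w hw := by
    refine ⟨fun a b hab => hw.1 (e a) (e b) fun h => hab ?_, ?_⟩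
    · rw [SimpleGraph.map_adj] at h
      obtain ⟨a', b', h1, h2, h3⟩ := h
      have h4 : a' = a := e.injective h2
      have h5 : b' = b := e.injective h3
      rw [← h4, ← h5]
      exact h1
    · change IsUnit (trees (fun s : Sym2 V => w (s.map e)))
      rw [trees_relabel e w (sup_self hw.1)]
      exact hw.2
  memG C _ _ w hw := by
    have h0 : (Sup R (G.map e.toEmbedding)).pts C (fun s => w (s.map e.symm)) := by
      intro a b hab
      refine hw.1 (e.symm a) (e.symm b) fun h => hab ?_
      rw [SimpleGraph.map_adj]
      exact ⟨_, _, h, e.apply_symm_apply a, e.apply_symm_apply b⟩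
    refine ⟨h0, ?_⟩
    change IsUnit (trees (fun s : Sym2 (Fin n) => w (s.map e.symm)))
    rw [← trees_relabel e _ (sup_self h0)]
    have h1 : (fun s : Sym2 V => w ((s.map e).map e.symm)) = w := by
      funext s
      rw [Sym2.map_map]
      simp
    rw [h1]
    exact hw.2
  GF C _ _ w hw := by
    funext s
    change w ((s.map e.symm).map e) = w s
    rw [Sym2.map_map]
    simp
  FG C _ _ w hw := by
    funext s
    change w ((s.map e).map e.symm) = w s
    rw [Sym2.map_map]
    simp

end relabel

section split

variable {V : Type} (G : SimpleGraph V) (v : V) (N : Set V)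

/-- adjacency after the splitting of `v` -/
def sAdj : Option V → Option V → Prop
  | none, none => False
  | none, some b => b ∈ N ∧ G.Adj v b
  | some a, none => a ∈ N ∧ G.Adj v a
  | some a, some b => G.Adj a b ∧ ¬ (a = v ∧ b ∈ N) ∧ ¬ (b = v ∧ a ∈ N)

/-- the vertex `v` is split into `none`, with the neighbours in `N`, and `some v` -/
def spl : SimpleGraph (Option V) where
  Adj := sAdj G v N
  symm := ⟨by
    intro x y h
    rcases x with _ | a <;> rcases y with _ | b
    · exact h
    · exact h
    · exact h
    · exact ⟨h.1.symm, h.2.2, h.2.1⟩⟩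
  loopless := ⟨by
    intro x h
    rcases x with _ | a
    · exact h
    · exact G.loopless.irrefl a h.1⟩

/-- adjacency after the splitting of `v`, with a new edge -/
def s1Adj : Option V → Option V → Prop
  | none, none => False
  | none, some b => b = v ∨ (b ∈ N ∧ G.Adj v b)
  | some a, none => a = v ∨ (a ∈ N ∧ G.Adj v a)
  | some a, some b => G.Adj a b ∧ ¬ (a = v ∧ b ∈ N) ∧ ¬ (b = v ∧ a ∈ N)

/-- the two new vertices are joined -/
def spl1 : SimpleGraph (Option V) where
  Adj := s1Adj G v N
  symm := ⟨by
    intro x y h
    rcases x with _ | a <;> rcases y with _ | b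
    · exact h
    · exact h
    · exact h
    · exact ⟨h.1.symm, h.2.2, h.2.1⟩⟩
  loopless := ⟨by
    intro x h
    rcases x with _ | a
    · exact h
    · exact G.loopless.irrefl a h.1⟩

/-- adjacency after the splitting of `v`, with a path of two new edges -/
def s2Adj : Option (Option V) → Option (Option V) → Prop
  | none, none => False
  | none, some b => b = none ∨ b = some v
  | some a, none => a = none ∨ a = some v
  | some a, some b => sAdj G v N a b

/-- the two new vertices are joined by a path of length two -/
def spl2 : SimpleGraph (Option (Option V)) where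
  Adj := s2Adj G v N
  symm := ⟨by
    intro x y h
    rcases x with _ | a <;> rcases y with _ | b
    · exact h
    · exact h
    · exact h
    · exact SimpleGraph.Adj.symm (G := spl G v N) h⟩
  loopless := ⟨by
    intro x h
    rcases x with _ | a
    · exact h
    · exact (spl G v N).loopless.irrefl a h⟩

variable {G v N} {C : Type} [CommRing C] [Algebra R C]

lemma spl_none_v {w : Sym2 (Option V) → C} (h : (Sup R (spl G v N)).pts C w) :
    w s(none, some v) = 0 := h none (some v) fun h' => G.loopless.irrefl v h'.2

variable [Fintype V] [DecidableEq V]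

lemma ctr_sup {w : Sym2 (Option V) → C} (h : (Sup R (spl G v N)).pts C w) :
    (Sup R G).pts C (ctr v w) := by
  intro a b hab
  by_cases h1 : a = b
  · subst h1
    exact ctr_self v w a
  · rw [ctr_mk v w h1, h (some a) (some b) fun h' => hab h'.1, zero_add]
    have h2 : (if a = v then w s(none, some b) else 0) = 0 := by
      split_ifs with ha
      · subst ha
        exact h none (some b) fun h' => hab h'.2
      · rfl
    have h3 : (if b = v then w s(none, some a) else 0) = 0 := by
      split_ifs with hb
      · subst hb
        exact h none (some a) fun h' => hab h'.2.symm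
      · rfl
    rw [h2, h3, add_zero]

/-- an edge of the split graph is sent to an edge of the graph -/
def q (v : V) : Option V → V
  | none => v
  | some a => a

open Classical in
/-- the weights on the split graph -/
noncomputable def ex (G : SimpleGraph V) (v : V) (N : Set V) (w : Sym2 V → C)
    (e : Sym2 (Option V)) : C :=
  if e ∈ (spl G v N).edgeSet then w (e.map (q v)) else 0

omit [Fintype V] [DecidableEq V] in
lemma ex_pos (w : Sym2 V → C) {x y : Option V} (h : sAdj G v N x y) :
    ex G v N w s(x, y) = w s(q v x, q v y) := if_pos h

omit [Fintype V] [DecidableEq V] in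
lemma ex_neg (w : Sym2 V → C) {x y : Option V} (h : ¬ sAdj G v N x y) :
    ex G v N w s(x, y) = 0 := if_neg h

lemma ctr_ex {w : Sym2 V → C} (h : (Sup R G).pts C w) : ctr v (ex G v N w) = w := by
  funext e
  induction e with
  | h a b =>
    by_cases h1 : a = b
    · subst h1
      rw [ctr_self, sup_self h]
    · rw [ctr_mk v _ h1]
      by_cases hG : G.Adj a b
      · by_cases ha : a = v
        · subst ha
          rw [if_pos rfl, if_neg (Ne.symm h1), add_zero]
          by_cases hb : b ∈ N
          · rw [ex_neg w (x := some a) (y := some b) fun h' => h'.2.1 ⟨rfl, hb⟩, zero_add,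
              ex_pos w (x := none) (y := some b) ⟨hb, hG⟩]
            rfl
          · rw [ex_neg w (x := none) (y := some b) fun h' => hb h'.1, add_zero,
              ex_pos w (x := some a) (y := some b) ⟨hG, fun h' => hb h'.2,
                fun h' => h1 h'.1.symm⟩]
            rfl
        · rw [if_neg ha, add_zero]
          by_cases hb : b = v
          · subst hb
            rw [if_pos rfl]
            by_cases ha' : a ∈ N
            · rw [ex_neg w (x := some a) (y := some b) fun h' => h'.2.2 ⟨rfl, ha'⟩, zero_add,
                ex_pos w (x := none) (y := some a) ⟨ha', hG.symm⟩]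
              exact congrArg w Sym2.eq_swap
            · rw [ex_neg w (x := none) (y := some a) fun h' => ha' h'.1, add_zero,
                ex_pos w (x := some a) (y := some b) ⟨hG, fun h' => ha h'.1,
                  fun h' => ha' h'.2⟩]
              rfl
          · rw [if_neg hb, add_zero, ex_pos w (x := some a) (y := some b)
              ⟨hG, fun h' => ha h'.1, fun h' => hb h'.1⟩]
            rfl
      · rw [h a b hG, ex_neg w (x := some a) (y := some b) fun h' => hG h'.1, zero_add]
        have h2 : (if a = v then ex G v N w s(none, some b) else 0) = 0 := by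
          split_ifs with ha
          · subst ha
            exact ex_neg w fun h' => hG h'.2
          · rfl
        have h3 : (if b = v then ex G v N w s(none, some a) else 0) = 0 := by
          split_ifs with hb
          · subst hb
            exact ex_neg w fun h' => hG h'.2.symm
          · rfl
        rw [h2, h3, add_zero]

lemma ex_ctr {w : Sym2 (Option V) → C} (h : (Sup R (spl G v N)).pts C w) :
    ex G v N (ctr v w) = w := by
  funext e
  induction e with
  | h x y =>
    by_cases hxy : sAdj G v N x y
    · rw [ex_pos _ hxy]
      rcases x with _ | a <;> rcases y with _ | b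
      · exact absurd hxy fun h' => h'
      · change ctr v w s(v, b) = _
        have h1 : v ≠ b := hxy.2.ne
        rw [ctr_mk v w h1, if_pos rfl, if_neg (Ne.symm h1), add_zero,
          h (some v) (some b) fun h' => h'.2.1 ⟨rfl, hxy.1⟩, zero_add]
      · change ctr v w s(a, v) = _
        have h1 : a ≠ v := hxy.2.ne.symm
        rw [ctr_mk v w h1, if_neg h1, if_pos rfl, add_zero,
          h (some a) (some v) fun h' => h'.2.2 ⟨rfl, hxy.1⟩, zero_add]
        exact congrArg w Sym2.eq_swap
      · change ctr v w s(a, b) = _
        have h1 : a ≠ b := hxy.1.ne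
        rw [ctr_mk v w h1]
        have h2 : (if a = v then w s(none, some b) else 0) = 0 := by
          split_ifs with ha
          · exact h none (some b) fun h' => hxy.2.1 ⟨ha, h'.1⟩
          · rfl
        have h3 : (if b = v then w s(none, some a) else 0) = 0 := by
          split_ifs with hb
          · exact h none (some a) fun h' => hxy.2.2 ⟨hb, h'.1⟩
          · rfl
        rw [h2, h3, add_zero, add_zero]
    · rw [ex_neg _ hxy]
      exact (h x y hxy).symm

omit [Fintype V] [DecidableEq V] in
lemma ex_sup (w : Sym2 V → C) : (Sup R (spl G v N)).pts C (ex G v N w) :=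
  fun _ _ h => ex_neg w h

lemma bij_ctr : Bij ((Sup R (spl G v N)).opn (cFn v _)) (KP R G) (fun _ _ _ w => ctr v w)
    (fun _ _ _ w => ex G v N w) where
  natF {C D} _ _ _ _ f w _ e := map_ctr (f : C →+* D) v w e
  natG {C D} _ _ _ _ f w _ e := by
    simp only [ex]
    split_ifs
    · rfl
    · exact map_zero f
  memF C _ _ w hw := ⟨ctr_sup hw.1, hw.2⟩
  memG C _ _ w hw := by
    refine ⟨ex_sup w, ?_⟩
    change IsUnit (trees (ctr v (ex G v N w)))
    rw [ctr_ex hw.1]
    exact hw.2
  GF C _ _ w hw := ex_ctr hw.1
  FG C _ _ w hw := ctr_ex hw.1

/-- a change of the weight of the new edge -/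
def upd {C : Type} (v : V) (x : C) (w : Sym2 (Option V) → C) (e : Sym2 (Option V)) : C :=
  if e = s(none, some v) then x else w e

omit [Fintype V] in
lemma spl1_of {x y : Option V} (h : ¬ s1Adj G v N x y) :
    s(x, y) ≠ s(none, some v) ∧ ¬ sAdj G v N x y := by
  constructor
  · intro h'
    rw [Sym2.eq_iff] at h'
    rcases h' with ⟨rfl, rfl⟩ | ⟨rfl, rfl⟩
    · exact h (Or.inl rfl)
    · exact h (Or.inl rfl)
  · intro h'
    rcases x with _ | a <;> rcases y with _ | b
    · exact h'
    · exact h (Or.inr h')
    · exact h (Or.inr h')
    · exact h h'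

omit [Fintype V] in
lemma spl_of {x y : Option V} (h : ¬ sAdj G v N x y) (h1 : s(x, y) ≠ s(none, some v)) :
    ¬ s1Adj G v N x y := by
  intro h'
  rcases x with _ | a <;> rcases y with _ | b
  · exact h'
  · rcases h' with rfl | h'
    · exact h1 rfl
    · exact h h'
  · rcases h' with rfl | h'
    · exact h1 Sym2.eq_swap
    · exact h h'
  · exact h h'

lemma bij_u1 : Bij (U1 (cFn v (Sup R (spl G v N))) (tFn (Sup R (spl G v N)))) (KP R (spl1 G v N))
    (fun _ _ _ p => upd v (p none) fun e => p (some e))
    (fun _ _ _ w t => t.elim (w s(none, some v)) (upd v 0 w)) where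
  natF f p _ e := by
    simp only [upd]
    split_ifs <;> rfl
  natG f w _ t := by
    rcases t with _ | e
    · rfl
    · change f (upd v 0 w e) = upd v 0 (fun e => f (w e)) e
      simp only [upd]
      split_ifs
      · exact map_zero f
      · rfl
  memF C _ _ p hp := by
    refine ⟨fun x y h => ?_, ?_⟩
    · obtain ⟨h1, h2⟩ := spl1_of h
      exact (if_neg h1).trans (hp.1 x y h2)
    · change IsUnit (trees (upd v (p none) fun e => p (some e)))
      have h1 := trees_split (fun e => p (some e)) (sup_self hp.1) v (spl_none_v hp.1) (p none)
      change IsUnit (trees fun e => if e = s(none, some v) then p none else p (some e))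
      rw [h1]
      exact hp.2
  memG C _ _ w hw := by
    have h0 : (Sup R (spl G v N)).pts C (upd v 0 w) := by
      intro x y h
      by_cases h1 : s(x, y) = s(none, some v)
      · exact if_pos h1
      · exact (if_neg h1).trans (hw.1 x y (spl_of h h1))
    refine ⟨h0, ?_⟩
    have h1 := trees_split (upd v 0 w) (sup_self h0) v (spl_none_v h0) (w s(none, some v))
    have h2 : (fun e => if e = s(none, some v) then w s(none, some v) else upd v 0 w e) = w := by
      funext e
      by_cases he : e = s(none, some v)
      · rw [if_pos he, he]
      · rw [if_neg he]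
        exact if_neg he
    rw [h2] at h1
    change IsUnit (trees (ctr v (upd v 0 w)) * w s(none, some v) + trees (upd v 0 w))
    rw [← h1]
    exact hw.2
  GF C _ _ p hp := by
    funext t
    rcases t with _ | e
    · exact if_pos rfl
    · change upd v 0 (upd v (p none) fun e => p (some e)) e = p (some e)
      by_cases he : e = s(none, some v)
      · rw [upd, if_pos he, he]
        exact (spl_none_v hp.1).symm
      · rw [upd, if_neg he, upd, if_neg he]
  FG C _ _ w hw := by
    funext e
    change upd v (w s(none, some v)) (upd v 0 w) e = w e
    by_cases he : e = s(none, some v)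
    · rw [upd, if_pos he, he]
    · rw [upd, if_neg he, upd, if_neg he]

lemma sub2_x (w : Sym2 (Option V) → C) (x y : C) : sub2 v w x y s(none, some none) = x := if_pos rfl

lemma sub2_y (w : Sym2 (Option V) → C) (x y : C) : sub2 v w x y s(none, some (some v)) = y := by
  have h1 : (s(none, some (some v)) : Sym2 (Option (Option V))) ≠ s(none, some none) := by
    rw [Ne, Sym2.congr_right]
    simp
  rw [sub2, if_neg h1, if_pos rfl]

lemma sub2_some (w : Sym2 (Option V) → C) (x y : C) (a b : Option V) :
    sub2 v w x y s(some a, some b) = w s(a, b) := by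
  have h1 : (s(some a, some b) : Sym2 (Option (Option V))) ≠ s(none, some none) := by
    rw [Ne, Sym2.eq_iff]
    simp
  have h2 : (s(some a, some b) : Sym2 (Option (Option V))) ≠ s(none, some (some v)) := by
    rw [Ne, Sym2.eq_iff]
    simp
  rw [sub2, if_neg h1, if_neg h2, up_some]

lemma sub2_other (w : Sym2 (Option V) → C) (x y : C) {b : Option (Option V)}
    (h1 : b ≠ some none) (h2 : b ≠ some (some v)) : sub2 v w x y s(none, b) = 0 := by
  have h3 : (s(none, b) : Sym2 (Option (Option V))) ≠ s(none, some none) := by
    rw [Ne, Sym2.congr_right]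
    exact h1
  have h4 : (s(none, b) : Sym2 (Option (Option V))) ≠ s(none, some (some v)) := by
    rw [Ne, Sym2.congr_right]
    exact h2
  rw [sub2, if_neg h3, if_neg h4, up_none]

lemma bij_u2 : Bij (U2 (cFn v (Sup R (spl G v N))) (tFn (Sup R (spl G v N)))) (KP R (spl2 G v N))
    (fun _ _ _ p => sub2 v (fun e => p (some (some e))) (p none) (p (some none)))
    (fun _ _ _ w t => t.elim (w s(none, some none)) fun t =>
      t.elim (w s(none, some (some v))) fun e => w (e.map some)) where
  natF {C D} _ _ _ _ f p _ e := by
    induction e with
    | h x y =>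
      have h1 : ∀ w : Sym2 (Option V) → C, f (up w s(x, y)) = up (fun e => f (w e)) s(x, y) := by
        intro w
        rcases x with _ | a <;> rcases y with _ | b
        · exact map_zero f
        · exact map_zero f
        · exact map_zero f
        · rfl
      simp only [sub2]
      split_ifs
      · rfl
      · rfl
      · exact h1 _
  natG f w _ t := by rcases t with _ | _ | e <;> rfl
  memF C _ _ p hp := by
    refine ⟨fun x y h => ?_, ?_⟩
    · rcases x with _ | a <;> rcases y with _ | b
      · exact sub2_other _ _ _ (by simp) (by simp)
      · refine sub2_other _ _ _ ?_ ?_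
        · rintro h'
          exact h (Or.inl (Option.some.inj h'))
        · rintro h'
          exact h (Or.inr (Option.some.inj h'))
      · rw [Sym2.eq_swap]
        refine sub2_other _ _ _ ?_ ?_
        · rintro h'
          exact h (Or.inl (Option.some.inj h'))
        · rintro h'
          exact h (Or.inr (Option.some.inj h'))
      · rw [sub2_some]
        exact hp.1 a b h
    · change IsUnit (trees (sub2 v (fun e => p (some (some e))) (p none) (p (some none))))
      rw [trees_sub2 _ (sup_self hp.1) v (spl_none_v hp.1)]
      exact hp.2
  memG C _ _ w hw := by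
    have h0 : (Sup R (spl G v N)).pts C (fun e => w (e.map some)) :=
      fun x y h => hw.1 (some x) (some y) h
    refine ⟨h0, ?_⟩
    have h1 := trees_sub2 (fun e => w (e.map some)) (sup_self h0) v (spl_none_v h0)
      (w s(none, some none)) (w s(none, some (some v)))
    have h2 : sub2 v (fun e => w (e.map some)) (w s(none, some none))
        (w s(none, some (some v))) = w := by
      funext e
      induction e with
      | h x y =>
        have h3 : ∀ b, sub2 v (fun e => w (e.map some)) (w s(none, some none))
            (w s(none, some (some v))) s(none, b) = w s(none, b) := by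
          intro b
          by_cases hb1 : b = some none
          · rw [hb1, sub2_x]
          by_cases hb2 : b = some (some v)
          · rw [hb2, sub2_y]
          rw [sub2_other _ _ _ hb1 hb2]
          refine (hw.1 none b fun h' => ?_).symm
          rcases b with _ | b
          · exact h'
          · rcases h' with rfl | rfl
            · exact hb1 rfl
            · exact hb2 rfl
        rcases x with _ | a
        · exact h3 y
        · rcases y with _ | b
          · have h5 : (s(some a, none) : Sym2 (Option (Option V))) = s(none, some a) := Sym2.eq_swap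
            rw [h5]
            exact h3 _
          · rw [sub2_some]
            rfl
    rw [h2] at h1
    change IsUnit (trees (ctr v (fun e => w (e.map some))) *
      (w s(none, some none) * w s(none, some (some v))) +
      trees (fun e => w (e.map some)) * (w s(none, some none) + w s(none, some (some v))))
    rw [← h1]
    exact hw.2
  GF C _ _ p hp := by
    funext t
    rcases t with _ | _ | e
    · exact sub2_x _ _ _
    · change sub2 v (fun e => p (some (some e))) (p none) (p (some none)) s(none, some (some v)) = _
      exact sub2_y _ _ _
    · induction e with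
      | h a b => exact sub2_some _ _ _ a b
  FG C _ _ w hw := by
    funext e
    induction e with
    | h x y =>
      have h3 : ∀ b, sub2 v (fun e => w (e.map some)) (w s(none, some none))
          (w s(none, some (some v))) s(none, b) = w s(none, b) := by
        intro b
        by_cases hb1 : b = some none
        · rw [hb1, sub2_x]
        by_cases hb2 : b = some (some v)
        · rw [hb2, sub2_y]
        rw [sub2_other _ _ _ hb1 hb2]
        refine (hw.1 none b fun h' => ?_).symm
        rcases b with _ | b
        · exact h'
        · rcases h' with rfl | rfl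
          · exact hb1 rfl
          · exact hb2 rfl
      rcases x with _ | a
      · exact h3 y
      · rcases y with _ | b
        · have h5 : (s(some a, none) : Sym2 (Option (Option V))) = s(none, some a) := Sym2.eq_swap
          rw [h5]
          exact h3 _
        · exact sub2_some _ _ _ a b

/-- **Splitting a vertex.** -/
theorem split_step (hP : Bnd sep P) (G : SimpleGraph V) (v : V) (N : Set V)
    (h0 : Hol P (KP R (spl G v N))) (h1 : Hol P (KP R (spl1 G v N)))
    (h2 : Hol P (KP R (spl2 G v N))) : Hol P (KP R G) :=
  (step (cFn v (Sup R (spl G v N))) (tFn (Sup R (spl G v N))) hP (hol_sup hP.toUni _).repr h0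
    (h1.trans (bij_symm bij_u1)) (h2.trans (bij_symm bij_u2))).trans bij_ctr

end split

end Pool.Agent.H51.KG
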