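import Pool.Agent.H51.KG.Deg

/-!
# Graphs with at most as many edges as vertices

Their Kirchhoff polynomials are zero, a product of variables, or a product of variables and an elementary
symmetric polynomial.
-/

set_option autoImplicit false
set_option linter.unusedSectionVars false
set_option linter.unusedVariables false

open CategoryTheory AlgebraicGeometry MvPolynomial Pool.Agent.Y116.UV Pool.Agent.Z125.UN
  Pool.Agent.H81.RZ

namespace Pool.Agent.H51.KG

variable {R : Type} [CommRing R] {sep : Prop} {P : Sch R → Prop} {ι : Type} [Fintype ι]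
  [DecidableEq ι]

/-- a function which is zero -/
lemma hol_void (hP : Uni sep P) {σ : Type} {S : Pts R σ} (e : Fn S) (h : Hol P S)
    (h0 : ∀ (C : Type) [CommRing C] [Algebra R C] (p : σ → C), S.pts C p → e.val C p = 0) :
    Hol P (S.opn e) :=
  h.opn e (clo_of_uni hP) (Hol.congr (fun C _ _ p => ⟨fun hp => ⟨hp, h0 C p hp⟩, fun hp => hp.1⟩) h)

/-- zero coordinates and invertible coordinates -/
def To (R : Type) [CommRing R] (Z U : Finset ι) : Pts R ι where
  pts C _ _ p := (∀ i ∈ Z, p i = 0) ∧ ∀ i ∈ U, IsUnit (p i)
  map f p h := ⟨fun i hi => by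
    change f (p i) = 0
    rw [h.1 i hi, map_zero], fun i hi => (h.2 i hi).map f⟩

lemma hol_to (hP : Uni sep P) (Z U : Finset ι) : Hol P (To R Z U) := by
  induction U using Finset.induction_on generalizing Z with
  | empty =>
    refine (hol_al hP {i // i ∉ Z}).trans (F := fun C _ _ p i => if h : i ∈ Z then 0 else p ⟨i, h⟩)
      (G := fun C _ _ p i => p i.1) ?_
    exact
      { natF := fun f p _ i => by
          by_cases h : i ∈ Z
          · rw [dif_pos h, dif_pos h, map_zero]
          · rw [dif_neg h, dif_neg h]
        natG := fun f p _ i => rfl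
        memF := fun C _ _ p _ => ⟨fun i hi => dif_pos hi, fun i hi => absurd hi (by simp)⟩
        memG := fun C _ _ p _ => trivial
        GF := fun C _ _ p _ => by
          funext i
          exact dif_neg i.2
        FG := fun C _ _ p hp => by
          funext i
          by_cases h : i ∈ Z
          · rw [dif_pos h, hp.1 i h]
          · rw [dif_neg h] }
  | insert u U _ ih =>
    refine Hol.congr (fun C _ _ p => ?_) ((ih Z).opn (co _ u) (clo_of_uni hP)
      (Hol.congr (fun C _ _ p => ?_) (ih (insert u Z))))
    · constructor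
      · rintro ⟨⟨h1, h2⟩, h3⟩
        refine ⟨h1, fun i hi => ?_⟩
        rcases Finset.mem_insert.mp hi with rfl | hi
        · exact h3
        · exact h2 i hi
      · rintro ⟨h1, h2⟩
        exact ⟨⟨h1, fun i hi => h2 i (Finset.mem_insert_of_mem hi)⟩,
          h2 u (Finset.mem_insert_self _ _)⟩
    · constructor
      · rintro ⟨h1, h2⟩
        exact ⟨⟨fun i hi => h1 i (Finset.mem_insert_of_mem hi), h2⟩,
          h1 u (Finset.mem_insert_self _ _)⟩
      · rintro ⟨⟨h1, h2⟩, h3⟩
        refine ⟨fun i hi => ?_, h2⟩
        rcases Finset.mem_insert.mp hi with rfl | hi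
        · exact h3
        · exact h1 i hi

/-- a partial sum of the coordinates -/
def sFn (D : Finset ι) (S : Pts R ι) : Fn S where
  val _ _ _ p := ∑ i ∈ D, p i
  nat f p _ := map_sum f _ _

/-- zero coordinates, the others invertible, and an invertible partial sum -/
def Lz (R : Type) [CommRing R] (Z D : Finset ι) : Pts R ι where
  pts C _ _ p := (∀ i ∈ Z, p i = 0) ∧ (∀ i, i ∉ Z → IsUnit (p i)) ∧ IsUnit (∑ i ∈ D, p i)
  map f p h := ⟨fun i hi => by
    change f (p i) = 0
    rw [h.1 i hi, map_zero], fun i hi => (h.2.1 i hi).map f, by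
    have := h.2.2.map f
    rwa [map_sum] at this⟩

lemma lz_congr (Z D : Finset ι) (C : Type) [CommRing C] [Algebra R C] (p : ι → C) :
    ((To R Z Zᶜ).opn (sFn D _)).pts C p ↔ (Lz R Z D).pts C p := by
  constructor
  · rintro ⟨⟨h1, h2⟩, h3⟩
    exact ⟨h1, fun i hi => h2 i (Finset.mem_compl.mpr hi), h3⟩
  · rintro ⟨h1, h2, h3⟩
    exact ⟨⟨h1, fun i hi => h2 i (Finset.mem_compl.mp hi)⟩, h3⟩

lemma hol_lz (hP : Uni sep P) (D Z : Finset ι) (hD : ∀ i ∈ D, i ∉ Z) : Hol P (Lz R Z D) := by
  induction D using Finset.induction_on generalizing Z with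
  | empty =>
    refine Hol.congr (lz_congr Z ∅) (hol_void hP _ (hol_to hP Z Zᶜ) fun C _ _ p _ => ?_)
    change ∑ i ∈ (∅ : Finset ι), p i = 0
    exact Finset.sum_empty
  | insert g D hg ih =>
    refine Hol.congr (lz_congr Z (insert g D)) ((hol_to hP Z Zᶜ).opn _ (clo_of_uni hP) ?_)
    have hgZ : g ∉ Z := hD g (Finset.mem_insert_self _ _)
    have hs : ∀ {C : Type} [CommRing C] (p q : ι → C), (∀ i, i ≠ g → p i = q i) →
        ∑ i ∈ D, p i = ∑ i ∈ D, q i := fun p q h =>
      Finset.sum_congr rfl fun i hi => h i fun h' => hg (h' ▸ hi)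
    refine (ih (insert g Z) fun i hi => ?_).trans
      (F := fun C _ _ q i => if i = g then -∑ j ∈ D, q j else q i)
      (G := fun C _ _ p i => if i = g then 0 else p i) ?_
    · rw [Finset.mem_insert]
      rintro (h | h)
      · exact hg (h ▸ hi)
      · exact hD i (Finset.mem_insert_of_mem hi) h
    · exact
        { natF := fun f q _ i => by
            by_cases h : i = g
            · rw [if_pos h, if_pos h, map_neg, map_sum]
            · rw [if_neg h, if_neg h]
          natG := fun f p _ i => by
            by_cases h : i = g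
            · rw [if_pos h, if_pos h, map_zero]
            · rw [if_neg h, if_neg h]
          memF := fun C _ _ q hq => by
            refine ⟨⟨fun i hi => ?_, fun i hi => ?_⟩, ?_⟩
            · have h : i ≠ g := fun h => hgZ (h ▸ hi)
              beta_reduce
              rw [if_neg h]
              exact hq.1 i (Finset.mem_insert_of_mem hi)
            · beta_reduce
              by_cases h : i = g
              · rw [if_pos h]
                exact hq.2.2.neg
              · rw [if_neg h]
                refine hq.2.1 i fun h' => ?_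
                rcases Finset.mem_insert.mp h' with h' | h'
                · exact h h'
                · exact Finset.mem_compl.mp hi h'
            · change ∑ i ∈ insert g D, (if i = g then -∑ j ∈ D, q j else q i) = 0
              rw [Finset.sum_insert hg, if_pos rfl,
                hs (fun i => if i = g then -∑ j ∈ D, q j else q i) q fun i hi => if_neg hi,
                neg_add_cancel]
          memG := fun C _ _ p hp => by
            have h0 : p g + ∑ i ∈ D, p i = 0 := by
              have h1 := hp.2
              change ∑ i ∈ insert g D, p i = 0 at h1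
              rwa [Finset.sum_insert hg] at h1
            refine ⟨fun i hi => ?_, fun i hi => ?_, ?_⟩
            · by_cases h : i = g
              · exact if_pos h
              · beta_reduce
                rw [if_neg h]
                exact hp.1.1 i ((Finset.mem_insert.mp hi).resolve_left h)
            · have h : i ≠ g := fun h => hi (h ▸ Finset.mem_insert_self _ _)
              beta_reduce
              rw [if_neg h]
              exact hp.1.2 i (Finset.mem_compl.mpr fun h' => hi (Finset.mem_insert_of_mem h'))
            · rw [hs (fun i => if i = g then 0 else p i) p fun i hi => if_neg hi]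
              have h1 : ∑ i ∈ D, p i = -p g := by linear_combination h0
              rw [h1]
              exact (hp.1.2 g (Finset.mem_compl.mpr hgZ)).neg
          GF := fun C _ _ q hq => by
            funext i
            by_cases h : i = g
            · change (if i = g then 0 else if i = g then -∑ j ∈ D, q j else q i) = q i
              rw [if_pos h, h]
              exact (hq.1 g (Finset.mem_insert_self _ _)).symm
            · change (if i = g then 0 else if i = g then -∑ j ∈ D, q j else q i) = q i
              rw [if_neg h, if_neg h]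
          FG := fun C _ _ p hp => by
            funext i
            have h0 : p g + ∑ i ∈ D, p i = 0 := by
              have h1 := hp.2
              change ∑ i ∈ insert g D, p i = 0 at h1
              rwa [Finset.sum_insert hg] at h1
            by_cases h : i = g
            · change (if i = g then -∑ j ∈ D, (if j = g then 0 else p j) else
                (if i = g then 0 else p i)) = p i
              rw [if_pos h, hs (fun i => if i = g then 0 else p i) p fun i hi => if_neg hi, h]
              linear_combination -h0
            · change (if i = g then -∑ j ∈ D, (if j = g then 0 else p j) else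
                (if i = g then 0 else p i)) = p i
              rw [if_neg h, if_neg h] }

/-- the sum of the products of all variables but one -/
def eFn (D : Finset ι) (S : Pts R ι) : Fn S where
  val _ _ _ p := ∑ e ∈ D, ∏ i ∈ Finset.univ.erase e, p i
  nat f p _ := by
    rw [map_sum]
    exact Finset.sum_congr rfl fun e _ => map_prod f _ _

/-- the coordinates not in `K` are invertible, and so is the value of `eFn` -/
def Sk (R : Type) [CommRing R] (D K : Finset ι) : Pts R ι := (To R ∅ Kᶜ).opn (eFn D _)

lemma mul_erase {C : Type} [CommRing C] (p : ι → C) (hp : ∀ i, IsUnit (p i)) (e : ι) :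
    ∏ i ∈ Finset.univ.erase e, Ring.inverse (p i) = p e * Ring.inverse (∏ i, p i) := by
  have h1 : ∀ i, p i * Ring.inverse (p i) = 1 := fun i => Ring.mul_inverse_cancel _ (hp i)
  have h2 : IsUnit (∏ i, p i) := by
    rw [IsUnit.prod_univ_iff]
    exact hp
  have h3 := Ring.mul_inverse_cancel _ h2
  have h4 : p e * ∏ i ∈ Finset.univ.erase e, p i = ∏ i, p i :=
    Finset.mul_prod_erase _ _ (Finset.mem_univ e)
  have h5 : (∏ i ∈ Finset.univ.erase e, p i) * ∏ i ∈ Finset.univ.erase e, Ring.inverse (p i) = 1 := by
    rw [← Finset.prod_mul_distrib]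
    exact Finset.prod_eq_one fun i _ => h1 i
  have h6 : IsUnit (∏ i ∈ Finset.univ.erase e, p i) := IsUnit.of_mul_eq_one _ h5
  refine h6.mul_left_cancel ?_
  rw [h5, ← mul_assoc, mul_comm _ (p e), h4, h3]

lemma hol_sk_zero (hP : Uni sep P) (D : Finset ι) : Hol P (Sk R D ∅) := by
  refine (hol_lz hP D ∅ fun i _ => by simp).trans (F := fun C _ _ p i => Ring.inverse (p i))
    (G := fun C _ _ p i => Ring.inverse (p i)) ?_
  have hu : ∀ {C : Type} [CommRing C] [Algebra R C] {p : ι → C}, (Lz R ∅ D).pts C p →
      ∀ i, IsUnit (p i) := fun h i => h.2.1 i (by simp)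
  have hu' : ∀ {C : Type} [CommRing C] [Algebra R C] {p : ι → C}, (Sk R D ∅).pts C p →
      ∀ i, IsUnit (p i) := fun h i => h.1.2 i (by simp)
  exact
    { natF := fun f p hp i => map_inv f (hu hp i)
      natG := fun f p hp i => map_inv f (hu' hp i)
      memF := fun C _ _ p hp => by
        refine ⟨⟨fun i hi => absurd hi (by simp), fun i _ => isUnit_inv (hu hp i)⟩, ?_⟩
        change IsUnit (∑ e ∈ D, ∏ i ∈ Finset.univ.erase e, Ring.inverse (p i))
        rw [Finset.sum_congr rfl fun e _ => mul_erase p (hu hp) e, ← Finset.sum_mul]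
        refine hp.2.2.mul (isUnit_inv ?_)
        rw [IsUnit.prod_univ_iff]
        exact hu hp
      memG := fun C _ _ p hp => by
        refine ⟨fun i hi => absurd hi (by simp), fun i _ => isUnit_inv (hu' hp i), ?_⟩
        have hq : ∀ i, IsUnit (Ring.inverse (p i)) := fun i => isUnit_inv (hu' hp i)
        have h2 : IsUnit (∏ i, Ring.inverse (p i)) := by
          rw [IsUnit.prod_univ_iff]
          exact hq
        have h1 : ∑ e ∈ D, Ring.inverse (p e) =
            (∑ e ∈ D, ∏ i ∈ Finset.univ.erase e, p i) * ∏ i, Ring.inverse (p i) := by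
          rw [Finset.sum_mul]
          refine Finset.sum_congr rfl fun e _ => ?_
          have h3 := mul_erase (fun i => Ring.inverse (p i)) hq e
          simp only [inv_inv (hu' hp _)] at h3
          rw [h3, mul_assoc, Ring.inverse_mul_cancel _ h2, mul_one]
        rw [h1]
        exact hp.2.mul h2
      GF := fun C _ _ p hp => by
        funext i
        exact inv_inv (hu hp i)
      FG := fun C _ _ p hp => by
        funext i
        exact inv_inv (hu' hp i) }

lemma eFn_zero {C : Type} [CommRing C] {p : ι → C} {g : ι} (hg : p g = 0) (D : Finset ι) :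
    ∑ e ∈ D, ∏ i ∈ Finset.univ.erase e, p i =
      if g ∈ D then ∏ i ∈ Finset.univ.erase g, p i else 0 := by
  have h1 : ∀ e ∈ D, e ≠ g → ∏ i ∈ Finset.univ.erase e, p i = 0 := fun e _ he =>
    Finset.prod_eq_zero (Finset.mem_erase.mpr ⟨Ne.symm he, Finset.mem_univ g⟩) hg
  split_ifs with h
  · exact Finset.sum_eq_single g h1 fun h' => absurd h h'
  · exact Finset.sum_eq_zero fun e he => h1 e he fun h' => h (h' ▸ he)

lemma hol_sk (hP : Uni sep P) (D K : Finset ι) : Hol P (Sk R D K) := by
  induction K using Finset.induction_on with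
  | empty => exact hol_sk_zero hP D
  | insert g K hgK ih =>
    have hr : Repr (Sk R D (insert g K)) := by
      have h1 : Hol P (To R ∅ (insert g K)ᶜ) := hol_to hP _ _
      exact h1.repr.opn _
    refine hol_tot (clo_of_uni hP) (co _ g) hr ?_ (Hol.congr (fun C _ _ p => ?_) ih)
    · by_cases hgD : g ∈ D
      · refine Hol.congr (fun C _ _ p => ?_) (hol_to hP {g} (Finset.univ.erase g))
        constructor
        · rintro ⟨h1, h2⟩
          have h3 : p g = 0 := h1 g (Finset.mem_singleton_self g)
          refine ⟨⟨⟨fun i hi => absurd hi (by simp), fun i hi => h2 i ?_⟩, ?_⟩, h3⟩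
          · refine Finset.mem_erase.mpr ⟨?_, Finset.mem_univ i⟩
            rintro rfl
            exact Finset.mem_compl.mp hi (Finset.mem_insert_self _ _)
          · change IsUnit (∑ e ∈ D, ∏ i ∈ Finset.univ.erase e, p i)
            rw [eFn_zero h3, if_pos hgD, IsUnit.prod_iff]
            exact h2
        · rintro ⟨⟨h1, h2⟩, h3⟩
          have h4 : p g = 0 := h3
          change IsUnit (∑ e ∈ D, ∏ i ∈ Finset.univ.erase e, p i) at h2
          rw [eFn_zero h4, if_pos hgD, IsUnit.prod_iff] at h2
          exact ⟨fun i hi => by
            rw [Finset.mem_singleton.mp hi]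
            exact h4, h2⟩
      · refine Hol.congr (fun C _ _ p => ?_) (hol_void hP (eFn D _)
          (hol_to hP {g} (insert g K)ᶜ) fun C _ _ p hp => ?_)
        · constructor
          · rintro ⟨⟨h1, h2⟩, h3⟩
            exact ⟨⟨⟨fun i hi => absurd hi (by simp), h2⟩, h3⟩, h1 g (Finset.mem_singleton_self g)⟩
          · rintro ⟨⟨⟨h1, h2⟩, h3⟩, h4⟩
            exact ⟨⟨fun i hi => by
              rw [Finset.mem_singleton.mp hi]
              exact h4, h2⟩, h3⟩
        · change ∑ e ∈ D, ∏ i ∈ Finset.univ.erase e, p i = 0
          rw [eFn_zero (hp.1 g (Finset.mem_singleton_self g)), if_neg hgD]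
    · constructor
      · rintro ⟨⟨h1, h2⟩, h3⟩
        refine ⟨⟨⟨h1, fun i hi => h2 i ?_⟩, h3⟩, h2 g (Finset.mem_compl.mpr hgK)⟩
        exact Finset.mem_compl.mpr fun h => Finset.mem_compl.mp hi (Finset.mem_insert_of_mem h)
      · rintro ⟨⟨⟨h1, h2⟩, h3⟩, h4⟩
        refine ⟨⟨h1, fun i hi => ?_⟩, h3⟩
        by_cases h : i = g
        · rw [h]
          exact h4
        · refine h2 i (Finset.mem_compl.mpr fun h' => ?_)
          rcases Finset.mem_insert.mp h' with h' | h'
          · exact h h'
          · exact Finset.mem_compl.mp hi h'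

/-- the sum of products -/
def tsFn (T : Finset (Finset ι)) (S : Pts R ι) : Fn S where
  val _ _ _ p := ∑ t ∈ T, ∏ i ∈ t, p i
  nat f p _ := by
    rw [map_sum]
    exact Finset.sum_congr rfl fun e _ => map_prod f _ _

/-- all products lack at most one variable -/
lemma hol_ts (hP : Uni sep P) (T : Finset (Finset ι)) (k : ℕ) (hT : ∀ t ∈ T, t.card = k)
    (hk : Fintype.card ι ≤ k + 1) : Hol P ((al R ι).opn (tsFn T _)) := by
  rcases T.eq_empty_or_nonempty with rfl | ⟨t0, ht0⟩
  · refine hol_void hP _ (hol_al hP ι) fun C _ _ p _ => ?_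
    change ∑ t ∈ (∅ : Finset (Finset ι)), ∏ i ∈ t, p i = 0
    exact Finset.sum_empty
  · have h1 : k ≤ Fintype.card ι := by
      rw [← hT t0 ht0]
      exact Finset.card_le_univ _
    by_cases h2 : k = Fintype.card ι
    · have h3 : ∀ t ∈ T, t = Finset.univ := fun t ht =>
        Finset.eq_univ_of_card t (by rw [hT t ht, h2])
      have h4 : T = {Finset.univ} := by
        ext t
        rw [Finset.mem_singleton]
        constructor
        · exact h3 t
        · rintro rfl
          rw [← h3 t0 ht0]
          exact ht0
      subst h4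
      refine Hol.congr (fun C _ _ p => ?_) (hol_to hP ∅ Finset.univ)
      constructor
      · rintro ⟨-, h5⟩
        refine ⟨trivial, ?_⟩
        change IsUnit (∑ t ∈ {Finset.univ}, ∏ i ∈ t, p i)
        rw [Finset.sum_singleton, IsUnit.prod_iff]
        exact h5
      · rintro ⟨-, h5⟩
        change IsUnit (∑ t ∈ {Finset.univ}, ∏ i ∈ t, p i) at h5
        rw [Finset.sum_singleton, IsUnit.prod_iff] at h5
        exact ⟨fun i hi => absurd hi (by simp), h5⟩
    · have h3 : k + 1 = Fintype.card ι := by omega
      let D : Finset ι := Finset.univ.filter fun e => Finset.univ.erase e ∈ T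
      have h4 : T = D.image fun e => Finset.univ.erase e := by
        ext t
        rw [Finset.mem_image]
        constructor
        · intro ht
          have h5 : tᶜ.card = 1 := by
            rw [Finset.card_compl, hT t ht]
            omega
          obtain ⟨e, he⟩ := Finset.card_eq_one.mp h5
          have h6 : Finset.univ.erase e = t := by
            rw [← compl_compl t, he]
            ext i
            simp
          exact ⟨e, Finset.mem_filter.mpr ⟨Finset.mem_univ e, by rw [h6]; exact ht⟩, h6⟩
        · rintro ⟨e, he, rfl⟩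
          exact (Finset.mem_filter.mp he).2
      refine Hol.congr (fun C _ _ p => ?_) (hol_sk hP D Finset.univ)
      have h5 : ∑ t ∈ T, ∏ i ∈ t, p i = ∑ e ∈ D, ∏ i ∈ Finset.univ.erase e, p i := by
        rw [h4, Finset.sum_image]
        intro a _ b _ hab
        by_contra hne
        have h6 : a ∈ Finset.univ.erase b := Finset.mem_erase.mpr ⟨hne, Finset.mem_univ a⟩
        have h7 : Finset.univ.erase a = Finset.univ.erase b := hab
        rw [← h7] at h6
        exact (Finset.mem_erase.mp h6).1 rfl
      constructor
      · rintro ⟨-, h6⟩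
        refine ⟨trivial, ?_⟩
        change IsUnit (∑ t ∈ T, ∏ i ∈ t, p i)
        rw [h5]
        exact h6
      · rintro ⟨-, h6⟩
        change IsUnit (∑ t ∈ T, ∏ i ∈ t, p i) at h6
        rw [h5] at h6
        exact ⟨⟨fun i hi => absurd hi (by simp), fun i hi => absurd hi (by simp)⟩, h6⟩

/-- at most as many edges as vertices -/
theorem off_few (hP : Uni sep P) {n : ℕ} (G : SimpleGraph (Fin n))
    (hG : G.edgeSet.ncard ≤ n) : P (aff R (Localization.Away (kirchhoff R G))) := by
  classical
  have : Fintype G.edgeSet := Fintype.ofFinite _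
  obtain ⟨a, ha⟩ := rep_off (R := R) G
  refine Hol.of_rep (clo_of_uni hP) ?_ ha
  set T : Finset (Finset G.edgeSet) := (Finset.univ : Finset (Finset G.edgeSet)).filter
    (fun T : Finset G.edgeSet => (SimpleGraph.fromEdgeSet (Subtype.val '' (T : Set G.edgeSet))).IsTree)
    with hT
  refine Hol.congr (fun C _ _ p => ?_) (hol_ts hP T (n - 1) ?_ ?_)
  · have h1 : aeval p (kirchhoff R G) = ∑ t ∈ T, ∏ i ∈ t, p i := by
      rw [kirchhoff, map_sum]
      refine Finset.sum_congr ?_ fun t _ => ?_
      · ext t
        simp [hT]
      · rw [map_prod]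
        exact Finset.prod_congr rfl fun i _ => aeval_X p i
    constructor
    · rintro ⟨-, h2⟩
      refine ⟨trivial, ?_⟩
      change IsUnit (aeval p (kirchhoff R G))
      rw [h1]
      exact h2
    · rintro ⟨-, h2⟩
      refine ⟨trivial, ?_⟩
      change IsUnit (aeval p (kirchhoff R G)) at h2
      rw [h1] at h2
      exact h2
  · intro t ht
    have h1 := (Finset.mem_filter.mp ht).2
    have h2 := h1.card_edgeFinset
    rw [Fintype.card_fin] at h2
    have h3 : (SimpleGraph.fromEdgeSet (Subtype.val '' (t : Set G.edgeSet))).edgeFinset =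
        t.map (Function.Embedding.subtype _) := by
      ext e
      rw [SimpleGraph.mem_edgeFinset, SimpleGraph.edgeSet_fromEdgeSet, Finset.mem_map]
      constructor
      · rintro ⟨⟨e', he', rfl⟩, -⟩
        exact ⟨e', he', rfl⟩
      · rintro ⟨e', he', rfl⟩
        exact ⟨⟨e', he', rfl⟩, G.not_isDiag_of_mem_edgeSet e'.2⟩
    rw [h3, Finset.card_map] at h2
    omega
  · rw [Set.ncard_eq_toFinset_card', Set.toFinset_card] at hG
    omega

/-- at most two neighbours -/
theorem off_two (hP : Uni sep P) : OffDegree (R := R) 2 P := by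
  classical
  intro n G hG
  refine off_few hP G ?_
  have h1 := G.sum_degrees_eq_twice_card_edges
  have h2 : ∑ v, G.degree v ≤ ∑ _v : Fin n, 2 := by
    refine Finset.sum_le_sum fun v _ => ?_
    have h3 := hG v
    rw [Set.ncard_eq_toFinset_card', Set.toFinset_card, SimpleGraph.card_neighborSet_eq_degree] at h3
    exact h3
  rw [h1, Finset.sum_const, Finset.card_univ, Fintype.card_fin, smul_eq_mul] at h2
  have h4 : G.edgeSet.ncard = G.edgeFinset.card := by
    rw [Set.ncard_eq_toFinset_card']
    rfl
  omega

theorem on_two (hP : Uni sep P) : OnDegree (R := R) 2 P := fun n G hG =>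
  (on_iff_off hP G).mpr (off_two hP n G hG)

theorem on_few (hP : Uni sep P) {n : ℕ} (G : SimpleGraph (Fin n)) (hG : G.edgeSet.ncard ≤ n) :
    P (aff R (Xg R G)) := (on_iff_off hP G).mpr (off_few hP G hG)

end Pool.Agent.H51.KG
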