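import Pool.Agent.H81.RZ.Lin

/-!
# From an edge and its subdivision to the contraction of the edge

`A` and `B` are functions on `S`. If `P` is true for `B` invertible, for `A x + B` invertible and for
`A x y + B (x + y)` invertible, then `P` is true for `A` invertible.
-/

set_option autoImplicit false
set_option linter.unusedSectionVars false

open CategoryTheory AlgebraicGeometry MvPolynomial Pool.Agent.Y116.UV Pool.Agent.Z125.UN
  Pool.Agent.H81.RZ

namespace Pool.Agent.H51.KG

/-- from the closed part and the open part to the whole -/
lemma hol_tot {R : Type} [CommRing R] {σ : Type} {sep : Prop} {P : Sch R → Prop}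
    (hP : Pool.Agent.Q282.UK.Clo sep P) {S : Pts R σ} (e : Fn S) (hS : Repr S)
    (hc : Hol P (S.clo e)) (ho : Hol P (S.opn e)) : Hol P S := by
  obtain ⟨A, i1, i2, i3, a, h1, -⟩ := hS
  exact ⟨A, i1, i2, i3, a, h1, hP.total _ _ (ft_aff sep) (triple_away (e.val A a))
    (hc.of_rep hP (h1.clo e)) (ho.of_rep hP (h1.opn e))⟩

variable {R : Type} [CommRing R] {σ : Type} {sep : Prop} {P : Sch R → Prop}

lemma map_inv {C D : Type} [CommRing C] [CommRing D] [Algebra R C] [Algebra R D] (f : C →ₐ[R] D)
    {x : C} (h : IsUnit x) : f (Ring.inverse x) = Ring.inverse (f x) := by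
  obtain ⟨u, rfl⟩ := h
  rw [Ring.inverse_unit]
  have h1 : f (u : C) = ((Units.map (f : C →* D) u : Dˣ) : D) := rfl
  rw [h1, Ring.inverse_unit]
  rfl

lemma isUnit_inv {C : Type} [CommRing C] {x : C} (h : IsUnit x) : IsUnit (Ring.inverse x) :=
  h.ringInverse

lemma inv_inv {C : Type} [CommRing C] {x : C} (h : IsUnit x) :
    Ring.inverse (Ring.inverse x) = x := by
  obtain ⟨u, rfl⟩ := h
  rw [Ring.inverse_unit, Ring.inverse_unit, _root_.inv_inv]

/-- one free coordinate more -/
def ext (S : Pts R σ) : Pts R (Option σ) where
  pts C _ _ p := S.pts C (fun s => p (some s))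
  map f _ h := S.map f h

lemma bij_ext (S : Pts R σ) : Bij (S.aff (Fin 1)) (ext S)
    (fun _ _ _ p t => t.elim (p (.inr 0)) fun s => p (.inl s))
    (fun _ _ _ q => Sum.elim (fun s => q (some s)) fun _ => q none) where
  natF f p hp t := by rcases t with _ | t <;> rfl
  natG f q hq s := by rcases s with s | s <;> rfl
  memF C _ _ p hp := hp
  memG C _ _ q hq := hq
  GF C _ _ p hp := by
    funext s
    rcases s with s | s
    · rfl
    · rw [Subsingleton.elim s 0]
      rfl
  FG C _ _ q hq := by
    funext t
    rcases t with _ | t <;> rfl

lemma hol_ext (hP : Bnd sep P) {S : Pts R σ} (h : Hol P S) : Hol P (ext S) :=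
  (h.aff hP (Fin 1)).trans (bij_ext S)

lemma repr_ext {S : Pts R σ} (h : Repr S) : Repr (ext S) := by
  obtain ⟨A, i1, i2, i3, a, h1, -⟩ := h
  exact Repr.trans ⟨_, inferInstance, inferInstance, Algebra.FiniteType.trans (S := A) inferInstance
    inferInstance, _, h1.aff (Fin 1), trivial⟩ (bij_ext S)

/-- a coordinate -/
def co (S : Pts R σ) (s : σ) : Fn S where
  val _ _ _ p := p s
  nat _ _ _ := rfl

/-- the product with the multiplicative group -/
lemma hol_gm (hP : Bnd sep P) {S : Pts R σ} (h : Hol P S) : Hol P S.gm := by
  have h1 : Hol P ((ext S).clo (co _ none)) := h.trans (F := fun C _ _ p t => t.elim 0 p)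
    (G := fun C _ _ q s => q (some s))
    { natF := fun f p _ t => by
        rcases t with _ | t
        · exact map_zero f
        · rfl
      natG := fun f q _ s => rfl
      memF := fun C _ _ p hp => by
        refine ⟨?_, rfl⟩
        change S.pts C p
        exact hp
      memG := fun C _ _ q hq => hq.1
      GF := fun C _ _ p _ => rfl
      FG := fun C _ _ q hq => by
        funext t
        rcases t with _ | t
        · exact hq.2.symm
        · rfl }
  exact Hol.congr (fun _ _ _ _ => Iff.rfl) ((hol_ext hP h).opn (co _ none) (clo_of_uni hP.toUni) h1)

section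

variable {S : Pts R σ} (A B : Fn S)

/-- `A x + B` is invertible. -/
def U1 : Pts R (Option σ) where
  pts C _ _ p := S.pts C (fun s => p (some s)) ∧
    IsUnit (A.val C (fun s => p (some s)) * p none + B.val C (fun s => p (some s)))
  map f p h := ⟨S.map f h.1, by
    have := h.2.map f
    rwa [map_add, map_mul, A.nat f _ h.1, B.nat f _ h.1] at this⟩

/-- `A x y + B (x + y)` is invertible. -/
def U2 : Pts R (Option (Option σ)) where
  pts C _ _ p := S.pts C (fun s => p (some (some s))) ∧
    IsUnit (A.val C (fun s => p (some (some s))) * (p none * p (some none)) +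
      B.val C (fun s => p (some (some s))) * (p none + p (some none)))
  map f p h := ⟨S.map f h.1, by
    have := h.2.map f
    rwa [map_add, map_mul, map_mul, map_mul, map_add, A.nat f _ h.1, B.nat f _ h.1] at this⟩

/-- `A + B x` is invertible. -/
def E1 : Pts R (Option σ) where
  pts C _ _ p := S.pts C (fun s => p (some s)) ∧
    IsUnit (A.val C (fun s => p (some s)) + B.val C (fun s => p (some s)) * p none)
  map f p h := ⟨S.map f h.1, by
    have := h.2.map f
    rwa [map_add, map_mul, A.nat f _ h.1, B.nat f _ h.1] at this⟩

/-- `A + B (x + y)` is invertible. -/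
def E2 : Pts R (Option (Option σ)) where
  pts C _ _ p := S.pts C (fun s => p (some (some s))) ∧
    IsUnit (A.val C (fun s => p (some (some s))) +
      B.val C (fun s => p (some (some s))) * (p none + p (some none)))
  map f p h := ⟨S.map f h.1, by
    have := h.2.map f
    rwa [map_add, map_mul, map_add, A.nat f _ h.1, B.nat f _ h.1] at this⟩

lemma repr_E1 (hS : Repr S) : Repr (E1 A B) := by
  let e : Fn (ext S) :=
    { val := fun C _ _ p => A.val C (fun s => p (some s)) + B.val C (fun s => p (some s)) * p none
      nat := fun f p h => by rw [map_add, map_mul, A.nat f _ h, B.nat f _ h] }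
  exact Hol.congr (fun _ _ _ _ => Iff.rfl) ((repr_ext hS).opn e)

lemma repr_E2 (hS : Repr S) : Repr (E2 A B) := by
  let e : Fn (ext (ext S)) :=
    { val := fun C _ _ p => A.val C (fun s => p (some (some s))) +
        B.val C (fun s => p (some (some s))) * (p none + p (some none))
      nat := fun f p h => by rw [map_add, map_mul, map_add, A.nat f _ h, B.nat f _ h] }
  exact Hol.congr (fun _ _ _ _ => Iff.rfl) ((repr_ext (repr_ext hS)).opn e)

/-- `x = 0` in `U1` -/
lemma u1_clo (hB : Hol P (S.opn B)) : Hol P ((U1 A B).clo (co _ none)) :=
  hB.trans (F := fun C _ _ p t => t.elim 0 p) (G := fun C _ _ q s => q (some s))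
    { natF := fun f p _ t => by
        rcases t with _ | t
        · exact map_zero f
        · rfl
      natG := fun f q _ s => rfl
      memF := fun C _ _ p hp => by
        refine ⟨⟨hp.1, ?_⟩, rfl⟩
        change IsUnit (A.val C p * 0 + B.val C p)
        rw [mul_zero, zero_add]
        exact hp.2
      memG := fun C _ _ q hq => by
        refine ⟨hq.1.1, ?_⟩
        have h1 := hq.1.2
        have h2 : q none = 0 := hq.2
        rw [h2, mul_zero, zero_add] at h1
        exact h1
      GF := fun C _ _ p _ => rfl
      FG := fun C _ _ q hq => by
        funext t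
        rcases t with _ | t
        · exact hq.2.symm
        · rfl }

/-- `x` invertible in `U1` and in `E1` -/
lemma u1_opn (h : Hol P ((U1 A B).opn (co _ none))) : Hol P ((E1 A B).opn (co _ none)) :=
  h.trans (F := fun C _ _ p t => t.elim (Ring.inverse (p none)) fun s => p (some s))
    (G := fun C _ _ p t => t.elim (Ring.inverse (p none)) fun s => p (some s))
    { natF := fun f p hp t => by
        rcases t with _ | t
        · exact map_inv f hp.2
        · rfl
      natG := fun f q hq t => by
        rcases t with _ | t
        · exact map_inv f hq.2
        · rfl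
      memF := fun C _ _ p hp => by
        refine ⟨⟨hp.1.1, ?_⟩, isUnit_inv hp.2⟩
        have h1 := hp.1.2
        have h2 : IsUnit (p none) := hp.2
        change IsUnit (A.val C (fun s => p (some s)) + B.val C (fun s => p (some s)) *
          Ring.inverse (p none))
        have h3 : A.val C (fun s => p (some s)) + B.val C (fun s => p (some s)) *
            Ring.inverse (p none) = (A.val C (fun s => p (some s)) * p none +
              B.val C (fun s => p (some s))) * Ring.inverse (p none) := by
          rw [add_mul, mul_assoc, Ring.mul_inverse_cancel _ h2, mul_one]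
        rw [h3]
        exact h1.mul (isUnit_inv h2)
      memG := fun C _ _ p hp => by
        refine ⟨⟨hp.1.1, ?_⟩, isUnit_inv hp.2⟩
        have h1 := hp.1.2
        have h2 : IsUnit (p none) := hp.2
        change IsUnit (A.val C (fun s => p (some s)) * Ring.inverse (p none) +
          B.val C (fun s => p (some s)))
        have h3 : A.val C (fun s => p (some s)) * Ring.inverse (p none) +
              B.val C (fun s => p (some s)) = (A.val C (fun s => p (some s)) +
              B.val C (fun s => p (some s)) * p none) * Ring.inverse (p none) := by
          rw [add_mul, mul_assoc (B.val C _), Ring.mul_inverse_cancel _ h2, mul_one]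
        rw [h3]
        exact h1.mul (isUnit_inv h2)
      GF := fun C _ _ p hp => by
        funext t
        rcases t with _ | t
        · exact inv_inv hp.2
        · rfl
      FG := fun C _ _ p hp => by
        funext t
        rcases t with _ | t
        · exact inv_inv hp.2
        · rfl }

/-- `x = 0` in `U2` -/
lemma u2_clo (hB : Hol P (S.opn B).gm) : Hol P ((U2 A B).clo (co _ none)) :=
  hB.trans (F := fun C _ _ p t => t.elim 0 p) (G := fun C _ _ q s => q (some s))
    { natF := fun f p _ t => by
        rcases t with _ | t
        · exact map_zero f
        · rfl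
      natG := fun f q _ s => rfl
      memF := fun C _ _ p hp => by
        refine ⟨⟨hp.1.1, ?_⟩, rfl⟩
        change IsUnit (A.val C (fun s => p (some s)) * (0 * p none) +
          B.val C (fun s => p (some s)) * (0 + p none))
        rw [zero_mul, mul_zero, zero_add, zero_add]
        exact hp.1.2.mul hp.2
      memG := fun C _ _ q hq => by
        have h1 := hq.1.2
        have h2 : q none = 0 := hq.2
        rw [h2, zero_mul, mul_zero, zero_add, zero_add] at h1
        exact ⟨⟨hq.1.1, isUnit_of_mul_isUnit_left h1⟩, isUnit_of_mul_isUnit_right h1⟩
      GF := fun C _ _ p _ => rfl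
      FG := fun C _ _ q hq => by
        funext t
        rcases t with _ | t
        · exact hq.2.symm
        · rfl }

/-- `x` invertible and `y = 0` in `U2` -/
lemma u2_opn_clo (hB : Hol P (S.opn B).gm) :
    Hol P (((U2 A B).opn (co _ none)).clo (co _ (some none))) :=
  hB.trans (F := fun C _ _ p t => t.elim (p none) fun t => t.elim 0 fun s => p (some s))
    (G := fun C _ _ q t => t.elim (q none) fun s => q (some (some s)))
    { natF := fun f p _ t => by
        rcases t with _ | _ | t
        · rfl
        · exact map_zero f
        · rfl
      natG := fun f q _ t => by rcases t with _ | t <;> rfl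
      memF := fun C _ _ p hp => by
        refine ⟨⟨⟨hp.1.1, ?_⟩, hp.2⟩, rfl⟩
        change IsUnit (A.val C (fun s => p (some s)) * (p none * 0) +
          B.val C (fun s => p (some s)) * (p none + 0))
        rw [mul_zero, mul_zero, zero_add, add_zero]
        exact hp.1.2.mul hp.2
      memG := fun C _ _ q hq => by
        have h1 := hq.1.1.2
        have h2 : q (some none) = 0 := hq.2
        rw [h2, mul_zero, mul_zero, zero_add, add_zero] at h1
        exact ⟨⟨hq.1.1.1, isUnit_of_mul_isUnit_left h1⟩, hq.1.2⟩
      GF := fun C _ _ p _ => by
        funext t
        rcases t with _ | t <;> rfl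
      FG := fun C _ _ q hq => by
        funext t
        rcases t with _ | _ | t
        · rfl
        · exact hq.2.symm
        · rfl }

/-- `x`, `y` invertible in `U2` and in `E2` -/
lemma u2_opn (h : Hol P (((U2 A B).opn (co _ none)).opn (co _ (some none)))) :
    Hol P (((E2 A B).opn (co _ none)).opn (co _ (some none))) :=
  h.trans (F := fun C _ _ p t => t.elim (Ring.inverse (p none)) fun t =>
      t.elim (Ring.inverse (p (some none))) fun s => p (some (some s)))
    (G := fun C _ _ p t => t.elim (Ring.inverse (p none)) fun t =>
      t.elim (Ring.inverse (p (some none))) fun s => p (some (some s)))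
    { natF := fun f p hp t => by
        rcases t with _ | _ | t
        · exact map_inv f hp.1.2
        · exact map_inv f hp.2
        · rfl
      natG := fun f q hq t => by
        rcases t with _ | _ | t
        · exact map_inv f hq.1.2
        · exact map_inv f hq.2
        · rfl
      memF := fun C _ _ p hp => by
        refine ⟨⟨⟨hp.1.1.1, ?_⟩, isUnit_inv hp.1.2⟩, isUnit_inv hp.2⟩
        have h1 := hp.1.1.2
        have h2 : IsUnit (p none) := hp.1.2
        have h3 : IsUnit (p (some none)) := hp.2
        change IsUnit (A.val C (fun s => p (some (some s))) + B.val C (fun s => p (some (some s))) *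
          (Ring.inverse (p none) + Ring.inverse (p (some none))))
        have h4 := Ring.mul_inverse_cancel _ h2
        have h5 := Ring.mul_inverse_cancel _ h3
        have h6 : A.val C (fun s => p (some (some s))) + B.val C (fun s => p (some (some s))) *
            (Ring.inverse (p none) + Ring.inverse (p (some none))) =
            (A.val C (fun s => p (some (some s))) * (p none * p (some none)) +
              B.val C (fun s => p (some (some s))) * (p none + p (some none))) *
              (Ring.inverse (p none) * Ring.inverse (p (some none))) := by
          linear_combination (-(A.val C (fun s => p (some (some s))) * p (some none) *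
            Ring.inverse (p (some none)) + B.val C (fun s => p (some (some s))) *
              Ring.inverse (p (some none)))) * h4 - (A.val C (fun s => p (some (some s))) +
              B.val C (fun s => p (some (some s))) * Ring.inverse (p none)) * h5
        rw [h6]
        exact h1.mul ((isUnit_inv h2).mul (isUnit_inv h3))
      memG := fun C _ _ p hp => by
        refine ⟨⟨⟨hp.1.1.1, ?_⟩, isUnit_inv hp.1.2⟩, isUnit_inv hp.2⟩
        have h1 := hp.1.1.2
        have h2 : IsUnit (p none) := hp.1.2
        have h3 : IsUnit (p (some none)) := hp.2
        change IsUnit (A.val C (fun s => p (some (some s))) *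
          (Ring.inverse (p none) * Ring.inverse (p (some none))) +
          B.val C (fun s => p (some (some s))) *
          (Ring.inverse (p none) + Ring.inverse (p (some none))))
        have h4 := Ring.mul_inverse_cancel _ h2
        have h5 := Ring.mul_inverse_cancel _ h3
        have h6 : A.val C (fun s => p (some (some s))) *
            (Ring.inverse (p none) * Ring.inverse (p (some none))) +
            B.val C (fun s => p (some (some s))) *
            (Ring.inverse (p none) + Ring.inverse (p (some none))) =
            (A.val C (fun s => p (some (some s))) +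
              B.val C (fun s => p (some (some s))) * (p none + p (some none))) *
              (Ring.inverse (p none) * Ring.inverse (p (some none))) := by
          linear_combination (-(B.val C (fun s => p (some (some s))) *
              Ring.inverse (p (some none)))) * h4 -
              (B.val C (fun s => p (some (some s))) * Ring.inverse (p none)) * h5
        rw [h6]
        exact h1.mul ((isUnit_inv h2).mul (isUnit_inv h3))
      GF := fun C _ _ p hp => by
        funext t
        rcases t with _ | _ | t
        · exact inv_inv hp.1.2
        · exact inv_inv hp.2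
        · rfl
      FG := fun C _ _ p hp => by
        funext t
        rcases t with _ | _ | t
        · exact inv_inv hp.1.2
        · exact inv_inv hp.2
        · rfl }

/-- `x` invertible and `y = 0` in `E2` -/
lemma e2_opn_clo (h : Hol P ((E1 A B).opn (co _ none))) :
    Hol P (((E2 A B).opn (co _ none)).clo (co _ (some none))) :=
  h.trans (F := fun C _ _ p t => t.elim (p none) fun t => t.elim 0 fun s => p (some s))
    (G := fun C _ _ q t => t.elim (q none) fun s => q (some (some s)))
    { natF := fun f p _ t => by
        rcases t with _ | _ | t
        · rfl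
        · exact map_zero f
        · rfl
      natG := fun f q _ t => by rcases t with _ | t <;> rfl
      memF := fun C _ _ p hp => by
        refine ⟨⟨⟨hp.1.1, ?_⟩, hp.2⟩, rfl⟩
        change IsUnit (A.val C (fun s => p (some s)) + B.val C (fun s => p (some s)) * (p none + 0))
        rw [add_zero]
        exact hp.1.2
      memG := fun C _ _ q hq => by
        have h1 := hq.1.1.2
        have h2 : q (some none) = 0 := hq.2
        rw [h2, add_zero] at h1
        exact ⟨⟨hq.1.1.1, h1⟩, hq.1.2⟩
      GF := fun C _ _ p _ => by
        funext t
        rcases t with _ | t <;> rfl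
      FG := fun C _ _ q hq => by
        funext t
        rcases t with _ | _ | t
        · rfl
        · exact hq.2.symm
        · rfl }

/-- `x` invertible in `E2` -/
lemma e2_gm (h : Hol P ((E2 A B).opn (co _ none))) : Hol P (E1 A B).gm :=
  h.trans (F := fun C _ _ p t => t.elim (p none) fun t =>
      t.elim (p none + p (some none)) fun s => p (some (some s)))
    (G := fun C _ _ p t => t.elim (p none) fun t =>
      t.elim (p (some none) - p none) fun s => p (some (some s)))
    { natF := fun f p hp t => by
        rcases t with _ | _ | t
        · rfl
        · exact map_add f _ _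
        · rfl
      natG := fun f q hq t => by
        rcases t with _ | _ | t
        · rfl
        · exact map_sub f _ _
        · rfl
      memF := fun C _ _ p hp => ⟨⟨hp.1.1, hp.1.2⟩, hp.2⟩
      memG := fun C _ _ p hp => by
        refine ⟨⟨hp.1.1, ?_⟩, hp.2⟩
        change IsUnit (A.val C (fun s => p (some (some s))) + B.val C (fun s => p (some (some s))) *
          (p none + (p (some none) - p none)))
        rw [add_sub_cancel]
        exact hp.1.2
      GF := fun C _ _ p hp => by
        funext t
        rcases t with _ | _ | t
        · rfl
        · exact add_sub_cancel_left _ _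
        · rfl
      FG := fun C _ _ p hp => by
        funext t
        rcases t with _ | _ | t
        · rfl
        · exact add_sub_cancel _ _
        · rfl }

/-- `x = 0` in `E1` -/
lemma e1_clo (h : Hol P ((E1 A B).clo (co _ none))) : Hol P (S.opn A) :=
  h.trans (F := fun C _ _ q s => q (some s)) (G := fun C _ _ p t => t.elim 0 p)
    { natF := fun f q _ s => rfl
      natG := fun f p _ t => by
        rcases t with _ | t
        · exact map_zero f
        · rfl
      memF := fun C _ _ q hq => by
        refine ⟨hq.1.1, ?_⟩
        have h1 := hq.1.2
        have h2 : q none = 0 := hq.2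
        rw [h2, mul_zero, add_zero] at h1
        exact h1
      memG := fun C _ _ p hp => by
        refine ⟨⟨hp.1, ?_⟩, rfl⟩
        change IsUnit (A.val C p + B.val C p * 0)
        rw [mul_zero, add_zero]
        exact hp.2
      GF := fun C _ _ q hq => by
        funext t
        rcases t with _ | t
        · exact hq.2.symm
        · rfl
      FG := fun C _ _ p _ => rfl }

/-- **The step.** -/
theorem step (hP : Bnd sep P) (hS : Repr S) (hB : Hol P (S.opn B)) (h1 : Hol P (U1 A B))
    (h2 : Hol P (U2 A B)) : Hol P (S.opn A) := by
  have hc := clo_of_uni hP.toUni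
  have hg := hol_gm hP hB
  have v1 : Hol P ((E1 A B).opn (co _ none)) :=
    u1_opn A B (h1.opn (co _ none) hc (u1_clo A B hB))
  have v2 : Hol P (((E2 A B).opn (co _ none)).opn (co _ (some none))) :=
    u2_opn A B ((h2.opn (co _ none) hc (u2_clo A B hg)).opn (co _ (some none)) hc
      (u2_opn_clo A B hg))
  have w2 : Hol P ((E2 A B).opn (co _ none)) :=
    hol_tot hc (co _ (some none)) ((repr_E2 A B hS).opn _) (e2_opn_clo A B v1) v2
  have e1 : Hol P (E1 A B) := Hol.of_gm hc (repr_E1 A B hS) (e2_gm A B w2)
  exact e1_clo A B (Hol.clo hP.toUni _ e1 v1)

end

end Pool.Agent.H51.KG
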